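import Pool.Agent.Q28.HJ.Defs
import Mathlib

/-!
# Motives with small motivic Galois groups: definitions
-/

open CategoryTheory MonoidalCategory

universe v u w

namespace Pool.Agent.Q28.TM

/-- The rational cocharacter space of a torus over `ℚ`, the Mumford-Tate group of a Hodge structure
of CM type. `Γ` is the Galois group of `ℚ`, `c` the complex conjugation. `X` is the space of
cocharacters (tensored with `ℚ`) with its linear Galois action `act` (through a finite quotient by an
open subgroup), `μ` is the Hodge cocharacter, whose conjugates span `X` (the torus is the smallest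
one which contains `μ`), and `w = μ + c μ` is the weight cocharacter. -/
structure TorusDatum (Γ : Type) [Group Γ] [TopologicalSpace Γ] (c : Γ) where
  /-- the cocharacters -/
  X : Type
  [grp : AddCommGroup X]
  [mod : Module ℚ X]
  /-- the Galois action -/
  act : Γ → X → X
  /-- the Hodge cocharacter -/
  μ : X
  /-- the weight cocharacter -/
  w : X
  add : ∀ g x y, act g (x + y) = act g x + act g y
  smul : ∀ g (a : ℚ) x, act g (a • x) = a • act g x
  one : ∀ x, act 1 x = x
  mul : ∀ g h x, act (g * h) x = act g (act h x)
  gen : ∀ S : Submodule ℚ X, (∀ g, act g μ ∈ S) → S = ⊤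
  fin : (Set.range act).Finite
  open_ker : IsOpen {g | ∀ x, act g x = x}
  conj : ∀ g, act c (act g μ) = w - act g μ
  fix : ∀ g, act g w = w

attribute [instance] TorusDatum.grp TorusDatum.mod

/-- The dimension of the Mumford-Tate torus of the sum of two Hodge structures of CM type: its
cocharacter space is spanned by the conjugates of `(μ, μ')`. -/
noncomputable def jointDim {Γ : Type} [Group Γ] [TopologicalSpace Γ] {c : Γ} (D E : TorusDatum Γ c) :
    ℕ :=
  Module.finrank ℚ (Submodule.span ℚ (Set.range fun g => (D.act g D.μ, E.act g E.μ)))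

/-- The datum of an elliptic curve with complex multiplication by an imaginary quadratic field: here
`χ` is the quadratic character of the field, `X` has dimension two and the Galois group acts on
`δ = 2 μ - w` by `χ`. -/
structure IsElliptic {Γ : Type} [Group Γ] [TopologicalSpace Γ] {c : Γ} (χ : Γ → ℚ)
    (E : TorusDatum Γ c) : Prop where
  rank : Module.finrank ℚ E.X = 2
  delta : ∀ g, E.act g ((2 : ℚ) • E.μ - E.w) = χ g • ((2 : ℚ) • E.μ - E.w)

/-- `χ` is a quadratic character with `χ(c) = -1`: the character of an imaginary quadratic field. -/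
structure IsQuadratic {Γ : Type} [Group Γ] [TopologicalSpace Γ] (c : Γ) (χ : Γ → ℚ) : Prop where
  sq : ∀ g, χ g = 1 ∨ χ g = -1
  mul : ∀ g h, χ (g * h) = χ g * χ h
  open_ker : IsOpen {g | χ g = 1}
  conj : χ c = -1

variable {𝓜 : Type u} [Category.{v} 𝓜] [Preadditive 𝓜] [MonoidalCategory 𝓜]
  [Limits.HasBinaryBiproducts 𝓜]

/-- The object `N` is obtained from `M` by tensor products, direct sums and direct summands, and by
passing from `N ⊗ L^c` and `L^c` to `N`. So `N` belongs to the Tannakian subcategory `⟨M⟩` generated
by `M`. -/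
inductive Below (L M : 𝓜) : 𝓜 → Prop
  | self : Below L M M
  | unit : Below L M (𝟙_ 𝓜)
  | tensor {A B : 𝓜} (hA : Below L M A) (hB : Below L M B) : Below L M (A ⊗ B)
  | sum {A B : 𝓜} (hA : Below L M A) (hB : Below L M B) : Below L M (A ⊞ B)
  | summand {A B : 𝓜} (hA : Below L M A) (R : Nonempty (Retract B A)) : Below L M B
  | untwist {A : 𝓜} (c : ℕ) (hL : Below L M (HJ.pow L c)) (hA : Below L M (A ⊗ HJ.pow L c)) :
      Below L M A

/-- The category `𝓜` of (pure) motives of abelian type over the field of algebraic numbers (Nori or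
André motives; those generated by abelian varieties), with the invariants in the period
conjecture. -/
structure AbelianMotives (𝓜 : Type u) [Category.{v} 𝓜] [Preadditive 𝓜] [MonoidalCategory 𝓜]
    [Limits.HasBinaryBiproducts 𝓜] (Γ : Type) [Group Γ] [TopologicalSpace Γ] (c : Γ) where
  /-- the Lefschetz motive -/
  L : 𝓜
  /-- the transcendence degree of the field of periods of `M` -/
  trdeg : 𝓜 → ℕ
  /-- the dimension of the motivic Galois group of `M`, which is the Mumford-Tate group (André) -/
  gdim : 𝓜 → ℕ
  /-- `M = h^1(A)` for an abelian variety `A ≠ 0` -/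
  AV : 𝓜 → Prop
  /-- `M` is of CM type, and its Mumford-Tate torus has the given cocharacters -/
  HasDatum : 𝓜 → TorusDatum Γ c → Prop
  /-- irreducible smooth projective varieties whose motives are of abelian type -/
  Var : Type w
  /-- the motive of a variety -/
  h : Var → 𝓜
  /-- the dimension -/
  dim : Var → ℕ
  /-- `X` is a K3 surface, or a hyperkähler variety with `b_2 > 3`, or a cubic fourfold -/
  K3Type : Var → Prop
  /-- the number of classes in `H^2(X)` (in `H^4(X)` for a cubic fourfold) independent modulo the
  algebraic classes -/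
  trank : Var → ℕ

namespace AbelianMotives

variable {Γ : Type} [Group Γ] [TopologicalSpace Γ] {c : Γ} (T : AbelianMotives.{v, u, w} 𝓜 Γ c)

/-- Known facts on periods.
* `le`: the period point lies on the torsor of motivic periods. `mono`, `fibre`: for `N` in `⟨M⟩` the
  periods of `N` belong to the field of periods of `M`, and the torsor of `M` is fibred over the
  torsor of `N` with fibres of dimension `gdim M - gdim N`.
* `chudnovsky`: the periods of an abelian variety `A ≠ 0` contain two algebraically independent ones
  (Chudnovsky).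
* `point`, `top`: the motive of a point has trivial group; `L^n` is a direct summand of the motive of
  a variety of dimension `n`.
* `kugaSatake`: for `X` of K3 type the Kuga-Satake variety `A` is such that the group of
  `h(X) ⊞ h^1(A)` is a finite covering of the groups of `h(X)` and of `h^1(A)` (Deligne, André; for
  hyperkähler varieties the Mumford-Tate groups of `H^*(X)` and of `H^2(X)` have the same Lie
  algebra, by Looijenga-Lunts and Verbitsky).
* `rank_two`: if moreover the transcendental part of `H^2` has rank two, its Mumford-Tate group has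
  dimension two. -/
structure PeriodFacts : Prop where
  le : ∀ M : 𝓜, T.trdeg M ≤ T.gdim M
  mono : ∀ M N : 𝓜, Below T.L M N → T.trdeg N ≤ T.trdeg M ∧ T.gdim N ≤ T.gdim M
  fibre : ∀ M N : 𝓜, Below T.L M N → T.gdim N + T.trdeg M ≤ T.gdim M + T.trdeg N
  chudnovsky : ∀ A : 𝓜, T.AV A → 2 ≤ T.trdeg A
  point : ∀ X : T.Var, T.dim X = 0 → T.gdim (T.h X) = 0
  top : ∀ X : T.Var, Nonempty (Retract (HJ.pow T.L (T.dim X)) (T.h X))
  kugaSatake : ∀ X : T.Var, T.K3Type X → ∃ A, T.AV A ∧ T.gdim (T.h X ⊞ A) ≤ T.gdim (T.h X) ∧
    T.gdim (T.h X ⊞ A) ≤ T.gdim A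
  rank_two : ∀ X : T.Var, T.K3Type X → T.trank X = 2 → T.gdim (T.h X) ≤ 2

/-- Known facts on motives of CM type.
* `torus`: a connected reductive group of dimension at most two is a torus. `datum_dim`, `joint`:
  the dimensions of the Mumford-Tate tori. `weight`: if `⟨M⟩` contains a power of `L`, the weight
  cocharacter is not zero.
* `elliptic`: there are elliptic curves with complex multiplication by every imaginary quadratic
  field, and there are such fields (`quadratic`). -/
structure TorusFacts : Prop where
  torus : ∀ M : 𝓜, T.gdim M ≤ 2 → ∃ D, T.HasDatum M D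
  datum_dim : ∀ (M : 𝓜) (D : TorusDatum Γ c), T.HasDatum M D → T.gdim M = Module.finrank ℚ D.X
  joint : ∀ (M N : 𝓜) (D E : TorusDatum Γ c), T.HasDatum M D → T.HasDatum N E →
    T.gdim (M ⊞ N) = jointDim D E
  weight : ∀ (M : 𝓜) (D : TorusDatum Γ c) (n : ℕ), T.HasDatum M D → 0 < n →
    Below T.L M (HJ.pow T.L n) → D.w ≠ 0
  elliptic : ∀ χ : Γ → ℚ, IsQuadratic c χ → ∃ (E : 𝓜) (D : TorusDatum Γ c),
    T.AV E ∧ T.HasDatum E D ∧ IsElliptic χ D
  quadratic : ∃ χ : Γ → ℚ, IsQuadratic c χ

/-- The known facts. -/
structure Facts : Prop extends T.PeriodFacts, T.TorusFacts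

/-- The period conjecture (Q1) for the motive `M`. -/
def PC (M : 𝓜) : Prop := T.trdeg M = T.gdim M

/-- The period conjecture for all motives in `⟨M⟩`. -/
def PCAll (M : 𝓜) : Prop := ∀ N, Below T.L M N → T.PC N

/-- The motivic Galois group of `M` has dimension at most one, or it has dimension two and `⟨M⟩`
contains a Tate motive of nonzero weight. -/
def Small (M : 𝓜) : Prop :=
  T.gdim M ≤ 1 ∨ T.gdim M = 2 ∧ ∃ n, 0 < n ∧ Below T.L M (HJ.pow T.L n)

end AbelianMotives

end Pool.Agent.Q28.TM
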