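import Pool.Agent.Q28.TM.Stm

/-!
# Project TM, group part A: the group of displacement functions
-/

set_option autoImplicit false

namespace Pool.Agent.Q28.TM

open Pool.Agent.Helper316 Pool.Agent.Helper316.FCV

section za

variable {G : Type} [Group G]

/-- the central elements of the derived subgroup -/
abbrev Zt (G : Type) [Group G] : Subgroup (Subgroup.center G) :=
  (commutator G).subgroupOf (Subgroup.center G)

/-- the central elements of the derived subgroup, written additively -/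
def ZA (G : Type) [Group G] : Type := Additive ↥(Zt G)

instance : AddCommGroup (ZA G) :=
  { (inferInstance : AddGroup (Additive ↥(Zt G))) with
    add_comm := by
      intro a b
      apply Additive.toMul.injective
      apply Subtype.ext
      apply Subtype.ext
      exact (Subgroup.mem_center_iff.mp (Additive.toMul b).1.2 (Additive.toMul a).1.1) }

/-- the value in `G` -/
def vl (z : ZA G) : G := (Additive.toMul (α := ↥(Zt G)) z).1.1

theorem vl_add (a b : ZA G) : vl (a + b) = vl a * vl b := rfl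
theorem vl_zero : vl (0 : ZA G) = 1 := rfl
theorem vl_neg (a : ZA G) : vl (-a) = (vl a)⁻¹ := rfl

theorem vl_inj : Function.Injective (vl : ZA G → G) := by
  intro a b h
  have h1 : (Additive.toMul (α := ↥(Zt G)) a).1 = (Additive.toMul (α := ↥(Zt G)) b).1 :=
    Subtype.ext h
  have h2 : Additive.toMul (α := ↥(Zt G)) a = Additive.toMul (α := ↥(Zt G)) b := Subtype.ext h1
  exact Additive.toMul.injective h2

theorem vl_center (a : ZA G) : vl a ∈ Subgroup.center G :=
  (Additive.toMul (α := ↥(Zt G)) a).1.2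

theorem vl_comm (a : ZA G) : vl a ∈ commutator G := (Additive.toMul (α := ↥(Zt G)) a).2

theorem vl_nsmul (n : ℕ) (a : ZA G) : vl (n • a) = (vl a) ^ n := by
  induction n with
  | zero => simp [vl_zero]
  | succ n ih => rw [succ_nsmul, vl_add, ih, pow_succ]

/-- the element with a given value -/
def mkz (g : G) (h1 : g ∈ Subgroup.center G) (h2 : g ∈ commutator G) : ZA G :=
  (Additive.ofMul (α := ↥(Zt G)) ⟨⟨g, h1⟩, h2⟩ : Additive ↥(Zt G))

theorem vl_mkz (g : G) (h1 : g ∈ Subgroup.center G) (h2 : g ∈ commutator G) :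
    vl (mkz g h1 h2) = g := rfl

/-- the central elements `z` with `g z` conjugate to `g`, for `g` in the class `c` -/
def TT (c : ConjClasses G) : AddSubgroup (ZA G) where
  carrier := {z | ∀ g, ConjClasses.mk g = c → IsConj g (g * vl z)}
  zero_mem' := by
    intro g _
    rw [vl_zero, mul_one]
  add_mem' := by
    intro a b ha hb g hg
    have h1 := ha g hg
    have h2 : ConjClasses.mk (g * vl a) = c := by
      rw [← hg]
      exact ConjClasses.mk_eq_mk_iff_isConj.mpr h1.symm
    have h3 := hb _ h2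
    rw [vl_add, ← mul_assoc]
    exact h1.trans h3
  neg_mem' := by
    intro a ha g hg
    have h1 := ha g hg
    rw [isConj_iff] at h1
    obtain ⟨c, hc⟩ := h1
    apply IsConj.symm
    rw [isConj_iff]
    refine ⟨c, ?_⟩
    rw [vl_neg]
    have hz := Subgroup.mem_center_iff.mp (inv_mem (vl_center a))
    calc c * (g * (vl a)⁻¹) * c⁻¹ = c * g * ((vl a)⁻¹ * c⁻¹) := by group
      _ = c * g * (c⁻¹ * (vl a)⁻¹) := by rw [hz c⁻¹]
      _ = (c * g * c⁻¹) * (vl a)⁻¹ := by group
      _ = g := by rw [hc]; group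

theorem TT_finite (hFC : FCG G) (c : ConjClasses G) : (TT c : Set (ZA G)).Finite := by
  obtain ⟨g, rfl⟩ := ConjClasses.exists_rep c
  have hinj : Function.Injective (fun z : ZA G => g * vl z) := by
    intro a b h
    exact vl_inj (mul_left_cancel h)
  refine Set.Finite.of_finite_image ((hFC g).subset ?_) hinj.injOn
  rintro _ ⟨z, hz, rfl⟩
  exact hz g rfl

theorem Zt_tors (hFC : FCG G) (a : ZA G) : ∃ n : ℕ, 0 < n ∧ n • a = 0 := by
  have h1 := hFC.comm_torsion (vl a) (vl_comm a)
  rw [isOfFinOrder_iff_pow_eq_one] at h1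
  obtain ⟨n, hn, h2⟩ := h1
  refine ⟨n, hn, ?_⟩
  apply vl_inj
  rw [vl_nsmul, h2, vl_zero]

theorem Zt_sep (hres : ∀ g : G, g ≠ 1 → ∃ (N : Subgroup G) (_ : N.Normal), g ∉ N ∧
    Finite ↥(commutator (G ⧸ N))) (a : ZA G) (ha : a ≠ 0) :
    ∃ n : ℕ, 0 < n ∧ ∀ b : ZA G, a ≠ n • b := by
  have h1 : vl a ≠ 1 := by
    intro h
    apply ha
    apply vl_inj
    rw [h, vl_zero]
  obtain ⟨N, hN, h2, h3⟩ := hres _ h1
  refine ⟨Nat.card ↥(commutator (G ⧸ N)), Nat.card_pos, fun b hb => h2 ?_⟩
  have h4 : (QuotientGroup.mk' N) (vl b) ∈ commutator (G ⧸ N) := by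
    have : (commutator G).map (QuotientGroup.mk' N) ≤ commutator (G ⧸ N) := by
      rw [commutator_def, commutator_def, Subgroup.map_commutator]
      exact Subgroup.commutator_mono le_top le_top
    exact this ⟨vl b, vl_comm b, rfl⟩
  have h5 : (⟨_, h4⟩ : commutator (G ⧸ N)) ^ Nat.card ↥(commutator (G ⧸ N)) = 1 := pow_card_eq_one'
  have h6 : ((QuotientGroup.mk' N) (vl b)) ^ Nat.card ↥(commutator (G ⧸ N)) = 1 :=
    congrArg Subtype.val h5
  rw [hb, vl_nsmul]
  rw [← map_pow] at h6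
  exact (QuotientGroup.eq_one_iff _).mp h6

/-- a representative of a class -/
noncomputable def rp (x : ConjClasses G) : G := (ConjClasses.exists_rep x).choose

theorem mk_rp (x : ConjClasses G) : ConjClasses.mk (rp x) = x := (ConjClasses.exists_rep x).choose_spec

theorem rp_conj (g : G) : IsConj (rp (ConjClasses.mk g)) g :=
  ConjClasses.mk_eq_mk_iff_isConj.mp (mk_rp _)

/-- the classes in a normal subgroup -/
def YY (H : Subgroup G) : Set (ConjClasses G) := {x | rp x ∈ H}

theorem mem_YY {H : Subgroup G} (hH : H.Normal) (h : G) : ConjClasses.mk h ∈ YY H ↔ h ∈ H := by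
  have h1 := rp_conj h
  rw [isConj_iff] at h1
  obtain ⟨c, hc⟩ := h1
  constructor
  · intro h2
    rw [← hc]
    exact hH.conj_mem _ h2 c
  · intro h2
    show rp (ConjClasses.mk h) ∈ H
    have h3 : c⁻¹ * (c * rp (ConjClasses.mk h) * c⁻¹) * (c⁻¹)⁻¹ = rp (ConjClasses.mk h) := by group
    rw [← h3]
    apply hH.conj_mem
    rw [hc]
    exact h2

theorem dl_class {y : MulAut G} {h c : G} (hh : dl y h ∈ Subgroup.center G)
    (hc : dl y c ∈ Subgroup.center G) : dl y (c⁻¹ * h * c) = dl y h := by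
  have e1 := dl_eq y h
  have e2 := dl_eq y c
  have h1 := Subgroup.mem_center_iff.mp hh
  have h2 := Subgroup.mem_center_iff.mp hc
  have e3 : y (c⁻¹ * h * c) = (c * dl y c)⁻¹ * (h * dl y h) * (c * dl y c) := by
    rw [map_mul, map_mul, map_inv, ← e1, ← e2]
  have : dl y (c⁻¹ * h * c) = (c⁻¹ * h * c)⁻¹ * y (c⁻¹ * h * c) := rfl
  rw [this, e3]
  calc (c⁻¹ * h * c)⁻¹ * ((c * dl y c)⁻¹ * (h * dl y h) * (c * dl y c))
      = c⁻¹ * h⁻¹ * c * ((dl y c)⁻¹ * (c⁻¹ * h * (dl y h * c) * dl y c)) := by group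
    _ = c⁻¹ * h⁻¹ * c * ((dl y c)⁻¹ * (c⁻¹ * h * (c * dl y h) * dl y c)) := by rw [h1 c]
    _ = c⁻¹ * h⁻¹ * c * ((dl y c)⁻¹ * ((c⁻¹ * h * c * dl y h) * dl y c)) := by group
    _ = c⁻¹ * h⁻¹ * c * ((dl y c)⁻¹ * (dl y c * (c⁻¹ * h * c * dl y h))) := by
        rw [h2 (c⁻¹ * h * c * dl y h)]
    _ = dl y h := by group

theorem central_of_dl {d : MulAut G} (hd : ∀ g, dl d g ∈ Subgroup.center G) {y : MulAut G}
    (hy : LI (y : G → G)) : d * y = y * d := by
  ext g
  rw [MulAut.mul_apply, MulAut.mul_apply]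
  rw [dl_eq d (y g), dl_eq d g, map_mul, hy.center (hd g)]
  congr 1
  obtain ⟨c, hc⟩ := hy {g}
  rw [hc g (by simp)]
  exact dl_class (hd g) (hd c)

theorem dl_one (g : G) : dl (1 : MulAut G) g = 1 := by simp [dl]

open Classical in
/-- the displacement as a function on classes (zero where it is not central) -/
noncomputable def dlz (y : MulAut G) (x : ConjClasses G) : ZA G :=
  if h : dl y (rp x) ∈ Subgroup.center G ∧ dl y (rp x) ∈ commutator G then mkz _ h.1 h.2 else 0

theorem vl_dlz {y : MulAut G} (hy : y ∈ XX G) {x : ConjClasses G}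
    (h : dl y (rp x) ∈ Subgroup.center G) : vl (dlz y x) = dl y (rp x) := by
  unfold dlz
  rw [dif_pos ⟨h, hy.1.dl_comm _⟩]
  rfl

theorem dlz_one (x : ConjClasses G) : dlz (1 : MulAut G) x = 0 := by
  apply vl_inj
  rw [vl_dlz (one_mem (XX G)) (by rw [dl_one]; exact one_mem _), dl_one, vl_zero]

theorem dlz_mul {y z : MulAut G} (hy : y ∈ XX G) (hz : z ∈ XX G) {x : ConjClasses G}
    (h1 : dl y (rp x) ∈ Subgroup.center G) (h2 : dl z (rp x) ∈ Subgroup.center G) :
    dlz (y * z) x = dlz y x + dlz z x := by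
  have h3 : dl (y * z) (rp x) = dl y (rp x) * dl z (rp x) := by
    rw [dl_mul, hy.1.center h2]
  apply vl_inj
  rw [vl_add, vl_dlz hy h1, vl_dlz hz h2, vl_dlz (mul_mem hy hz) (by rw [h3]; exact mul_mem h1 h2), h3]

theorem dlz_range {y : MulAut G} (hy : y ∈ XX G) : (Set.range (dlz y)).Finite := by
  have h1 : (vl '' (Set.range (dlz y))).Finite := by
    refine (hy.2.union (Set.finite_singleton (1 : G))).subset ?_
    rintro _ ⟨_, ⟨x, rfl⟩, rfl⟩
    by_cases h : dl y (rp x) ∈ Subgroup.center G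
    · left
      rw [vl_dlz hy h]
      exact ⟨_, rfl⟩
    · right
      unfold dlz
      rw [dif_neg (fun h' => h h'.1)]
      exact vl_zero
  exact Set.Finite.of_finite_image h1 vl_inj.injOn

/-- the displacement lies in `TT` -/
theorem dlz_mem {y : MulAut G} (hy : y ∈ XX G) {x : ConjClasses G}
    (h : dl y (rp x) ∈ Subgroup.center G) : dlz y x ∈ TT x := by
  intro g hg
  rw [vl_dlz hy h]
  have h1 : IsConj (rp x) g := by
    rw [← ConjClasses.mk_eq_mk_iff_isConj, mk_rp, hg]
  -- first for the representative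
  have h2 : IsConj (rp x) (rp x * dl y (rp x)) := by
    rw [← dl_eq]
    obtain ⟨c, hc⟩ := hy.1 {rp x}
    rw [isConj_iff]
    exact ⟨c⁻¹, by rw [hc _ (by simp)]; group⟩
  have h3 : IsConj (rp x * dl y (rp x)) (g * dl y (rp x)) := by
    rw [isConj_iff] at h1 ⊢
    obtain ⟨c, hc⟩ := h1
    refine ⟨c, ?_⟩
    have hz := Subgroup.mem_center_iff.mp h
    calc c * (rp x * dl y (rp x)) * c⁻¹ = c * rp x * (dl y (rp x) * c⁻¹) := by group
      _ = c * rp x * (c⁻¹ * dl y (rp x)) := by rw [hz c⁻¹]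
      _ = (c * rp x * c⁻¹) * dl y (rp x) := by group
      _ = _ := by rw [hc]
  exact h1.symm.trans (h2.trans h3)

end za

end Pool.Agent.Q28.TM
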