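import Pool.Agent.Q28.TM.GrpA

/-!
# Project TM, group part B: closed sets
-/

set_option autoImplicit false

namespace Pool.Agent.Q28.TM

open Pool.Agent.Helper316 Pool.Agent.Helper316.FCV

/-- the displacement functions -/
abbrev Fx (G : Type) [Group G] : AddSubgroup (ConjClasses G → ZA G) :=
  Fn (TT (G := G))

/-- the data: a decomposition of the group of displacement functions -/
structure Dt (G J : Type) [Group G] (k : J → ℕ) where
  fc : FCG G
  kpos : ∀ j, 0 < k j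
  e : Fx G ≃+ Π₀ j, ZMod (k j)

section clo

variable {G J : Type} [Group G] {k : J → ℕ}

theorem dlz_Fx {y : MulAut G} (hy : y ∈ XX G) (h : ∀ g, dl y g ∈ Subgroup.center G) :
    dlz y ∈ Fx G := ⟨fun _ => dlz_mem hy (h _), dlz_range hy⟩

open Classical in
/-- the displacement as an element -/
noncomputable def FXf (y : MulAut G) : Fx G := if h : dlz y ∈ Fx G then ⟨dlz y, h⟩ else 0

theorem FXf_val {y : MulAut G} (h : dlz y ∈ Fx G) : (FXf y).1 = dlz y := by
  unfold FXf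
  rw [dif_pos h]

/-- labels -/
abbrev Om' (G J : Type) [Group G] : Type := Om G ⊕ J

/-- the requirements -/
def Rq (D : Dt G J k) (s : Finset (Om' G J)) (t : Set (Om' G J)) : Prop :=
  (∀ o ∈ FF D.fc (s.preimage Sum.inl Sum.inl_injective.injOn), (Sum.inl o : Om' G J) ∈ t) ∧
  (∀ y : MulAut G, (Sum.inl (Sum.inr y) : Om' G J) ∈ s → (∃ g, dl y g ∉ Subgroup.center G) →
    ∃ g, (Sum.inl (Sum.inl g) : Om' G J) ∈ t ∧ dl y g ∉ Subgroup.center G) ∧
  (∀ y : MulAut G, (Sum.inl (Sum.inr y) : Om' G J) ∈ s → ∀ j, D.e (FXf y) j ≠ 0 →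
    (Sum.inr j : Om' G J) ∈ t) ∧
  (∀ x : ConjClasses G, ∃ x', (Sum.inl (Sum.inl (rp x')) : Om' G J) ∈ t ∧
    (∀ a : ZA G, (Sum.inl (Sum.inl (vl a)) : Om' G J) ∈ s → (a ∈ TT x' ↔ a ∈ TT x)) ∧
    ∀ f : Fx G, (∀ j, D.e f j ≠ 0 → (Sum.inr j : Om' G J) ∈ s) → f.1 x' = f.1 x)

/-- the coordinates of the displacement function of a label -/
def jlab (D : Dt G J k) : Om' G J → Set (Om' G J)
  | Sum.inl (Sum.inr y) => {u | ∃ j, D.e (FXf y) j ≠ 0 ∧ u = Sum.inr j}
  | _ => ∅

theorem jlab_countable (D : Dt G J k) (o : Om' G J) : (jlab D o).Countable := by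
  classical
  match o with
  | Sum.inl (Sum.inr y) =>
    refine Set.Countable.mono ?_ (((D.e (FXf y)).support.countable_toSet).image
      (fun j => (Sum.inr j : Om' G J)))
    rintro u ⟨j, hj, rfl⟩
    exact ⟨j, DFinsupp.mem_support_iff.mpr hj, rfl⟩
  | Sum.inl (Sum.inl g) => exact Set.countable_empty
  | Sum.inr j => exact Set.countable_empty

theorem exRq (hE : P_EXTF) (D : Dt G J k) (s : Finset (Om' G J)) :
    ∃ t : Set (Om' G J), t.Countable ∧ Rq D s t := by
  classical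
  have hinj : Function.Injective (fun a : ZA G => (Sum.inl (Sum.inl (vl a)) : Om' G J)) := by
    intro a b h
    exact vl_inj (Sum.inl_injective (Sum.inl_injective h))
  obtain ⟨Yf, hYf⟩ := hE (ConjClasses G) (ZA G) J TT k D.e D.kpos
    (s.preimage (fun a : ZA G => (Sum.inl (Sum.inl (vl a)) : Om' G J)) hinj.injOn)
    (s.preimage Sum.inr Sum.inr_injective.injOn)
  have hw : ∀ y : MulAut G, ∃ g, (∃ g, dl y g ∉ Subgroup.center G) → dl y g ∉ Subgroup.center G := by
    intro y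
    by_cases h : ∃ g, dl y g ∉ Subgroup.center G
    · obtain ⟨g, hg⟩ := h
      exact ⟨g, fun _ => hg⟩
    · exact ⟨1, fun h' => absurd h' h⟩
  choose w hw using hw
  refine ⟨Sum.inl '' FF D.fc (s.preimage Sum.inl Sum.inl_injective.injOn) ∪
    (fun o : Om' G J => match o with
      | Sum.inl (Sum.inr y) => (Sum.inl (Sum.inl (w y)) : Om' G J)
      | o => o) '' (s : Set (Om' G J)) ∪
    (⋃ o ∈ (s : Set (Om' G J)), jlab D o) ∪
    ((fun x => (Sum.inl (Sum.inl (rp x)) : Om' G J)) '' (Yf : Set (ConjClasses G))), ?_, ?_⟩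
  · refine (((FF_countable D.fc _).image _).union (s.countable_toSet.image _)).union ?_ |>.union
      (Yf.countable_toSet.image _)
    exact Set.Countable.biUnion s.countable_toSet (fun o _ => jlab_countable D o)
  · refine ⟨?_, ?_, ?_, ?_⟩
    · intro o ho
      exact Or.inl (Or.inl (Or.inl ⟨o, ho, rfl⟩))
    · intro y hy h
      refine ⟨w y, Or.inl (Or.inl (Or.inr ⟨_, hy, rfl⟩)), hw y h⟩
    · intro y hy j hj
      refine Or.inl (Or.inr ?_)
      refine Set.mem_biUnion (x := (Sum.inl (Sum.inr y) : Om' G J)) hy ?_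
      exact ⟨j, hj, rfl⟩
    · intro x
      obtain ⟨x', hx', h1, h2⟩ := hYf x
      refine ⟨x', Or.inr ⟨x', hx', rfl⟩, ?_, ?_⟩
      · intro a ha
        exact h1 a (Finset.mem_preimage.mpr ha)
      · intro f hf
        exact h2 f (fun j hj => Finset.mem_preimage.mpr (hf j hj))

variable (hE : P_EXTF) (D : Dt G J k)

/-- the closure operation -/
noncomputable def FF' (s : Finset (Om' G J)) : Set (Om' G J) := (exRq hE D s).choose

theorem FF'_countable (s : Finset (Om' G J)) : (FF' hE D s).Countable :=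
  (exRq hE D s).choose_spec.1

theorem FF'_req (s : Finset (Om' G J)) : Rq D s (FF' hE D s) := (exRq hE D s).choose_spec.2

variable {hE D} {C : Set (Om' G J)} (hC : Closed (FF' hE D) C)

/-- the labels in `Om G` -/
def C0 (C : Set (Om' G J)) : Set (Om G) := {o | (Sum.inl o : Om' G J) ∈ C}

include hC

theorem closed0 : Closed (FF D.fc) (C0 C) := by
  classical
  intro s hs o ho
  have h1 : ((s.map Function.Embedding.inl : Finset (Om' G J)) : Set (Om' G J)) ⊆ C := by
    intro u hu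
    simp only [Finset.coe_map, Set.mem_image, Finset.mem_coe] at hu
    obtain ⟨v, hv, rfl⟩ := hu
    exact hs hv
  have h2 := (FF'_req hE D (s.map Function.Embedding.inl)).1 o (by
    have : ((s.map Function.Embedding.inl : Finset (Om' G J)).preimage Sum.inl
        Sum.inl_injective.injOn) = s := by
      ext u
      simp
    rw [this]
    exact ho)
  exact hC _ h1 h2

/-- the subgroup of `G` -/
noncomputable abbrev Hh : Subgroup G := HH (closed0 hC)

theorem mem_Hh {g : G} : g ∈ Hh hC ↔ (Sum.inl (Sum.inl g) : Om' G J) ∈ C := Iff.rfl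

theorem Hh_normal : (Hh hC).Normal := HH_normal _

theorem c_cen {y : MulAut G} (hyC : (Sum.inl (Sum.inr y) : Om' G J) ∈ C)
    (h : ∀ h ∈ Hh hC, dl y h ∈ Subgroup.center G) (g : G) : dl y g ∈ Subgroup.center G := by
  classical
  by_contra hcon
  obtain ⟨g', hg', h'⟩ := (FF'_req hE D {Sum.inl (Sum.inr y)}).2.1 y (by simp) ⟨g, hcon⟩
  exact h' (h g' (hC {Sum.inl (Sum.inr y)} (by simpa using hyC) hg'))

theorem c_J {y : MulAut G} (hyC : (Sum.inl (Sum.inr y) : Om' G J) ∈ C) (j : J)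
    (hj : D.e (FXf y) j ≠ 0) : (Sum.inr j : Om' G J) ∈ C := by
  classical
  exact hC {Sum.inl (Sum.inr y)} (by simpa using hyC)
    ((FF'_req hE D {Sum.inl (Sum.inr y)}).2.2.1 y (by simp) j hj)

theorem c_X (s : Finset (ZA G)) (t : Finset J)
    (hs : ∀ a ∈ s, (Sum.inl (Sum.inl (vl a)) : Om' G J) ∈ C)
    (ht : ∀ j ∈ t, (Sum.inr j : Om' G J) ∈ C) (x : ConjClasses G) :
    ∃ x' ∈ YY (Hh hC), (∀ a ∈ s, a ∈ TT x' → a ∈ TT x) ∧
      ∀ f : Fx G, (∀ j, D.e f j ≠ 0 → j ∈ t) → f.1 x' = f.1 x := by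
  classical
  set u : Finset (Om' G J) := s.image (fun a => (Sum.inl (Sum.inl (vl a)) : Om' G J)) ∪
    t.image Sum.inr with hu
  have huC : (u : Set (Om' G J)) ⊆ C := by
    intro o ho
    rw [hu, Finset.mem_coe, Finset.mem_union, Finset.mem_image, Finset.mem_image] at ho
    rcases ho with ⟨a, ha, rfl⟩ | ⟨j, hj, rfl⟩
    · exact hs a ha
    · exact ht j hj
  obtain ⟨x', h1, h2, h3⟩ := (FF'_req hE D u).2.2.2 x
  refine ⟨x', hC u huC h1, ?_, ?_⟩
  · intro a ha h
    refine (h2 a ?_).mp h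
    rw [hu, Finset.mem_union]
    exact Or.inl (Finset.mem_image_of_mem _ ha)
  · intro f hf
    refine h3 f (fun j hj => ?_)
    rw [hu, Finset.mem_union]
    exact Or.inr (Finset.mem_image_of_mem _ (hf j hj))

/-- displacement functions on the classes of `H` -/
theorem dlz_conj {y : MulAut G} (hyX : y ∈ XX G) (hy : ∀ h ∈ Hh hC, dl y h ∈ Subgroup.center G)
    {h : G} (hh : h ∈ Hh hC) : vl (dlz y (ConjClasses.mk h)) = dl y h := by
  have h1 : rp (ConjClasses.mk h) ∈ Hh hC := (mem_YY (Hh_normal hC) h).mpr hh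
  rw [vl_dlz hyX (hy _ h1)]
  have h2 := (rp_conj h).symm
  rw [isConj_iff] at h2
  obtain ⟨c, hc⟩ := h2
  obtain ⟨d, hd, hd'⟩ := c_conj (closed0 hC) (g := h) hh c⁻¹
  have h3 : rp (ConjClasses.mk h) = d⁻¹ * h * d := by
    rw [← hd', ← hc]; group
  rw [h3]
  exact dl_class (hy h hh) (hy d hd)

theorem dlz_Dn {y : MulAut G} (hyX : y ∈ XX G) (hy : ∀ h ∈ Hh hC, dl y h ∈ Subgroup.center G) :
    dlz y ∈ Dn (TT (G := G)) (YY (Hh hC)) :=
  ⟨fun x hx => dlz_mem hyX (hy _ hx), (dlz_range hyX).subset (Set.image_subset_range _ _)⟩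

omit hC in
theorem Fx_Dn (f : Fx G) (Y : Set (ConjClasses G)) : f.1 ∈ Dn (TT (G := G)) Y :=
  ⟨fun _ _ => f.2.1 _, f.2.2.subset (Set.image_subset_range _ _)⟩

theorem exR (hX : P_EXT) : ∃ ρ : Dn (TT (G := G)) (YY (Hh hC)) →+ Fx G,
    (∀ f j, D.e (ρ f) j ≠ 0 → (Sum.inr j : Om' G J) ∈ C) ∧
    (∀ (f : Fx G) (g : Dn (TT (G := G)) (YY (Hh hC))),
      (∀ j, D.e f j ≠ 0 → (Sum.inr j : Om' G J) ∈ C) → (∀ x ∈ YY (Hh hC), g.1 x = f.1 x) →
      ρ g = f) := by
  refine hX (ConjClasses G) (ZA G) J TT k D.e (YY (Hh hC))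
    {a | (Sum.inl (Sum.inl (vl a)) : Om' G J) ∈ C} {j | (Sum.inr j : Om' G J) ∈ C} ?_ ?_
  · intro x hx a ha
    have h1 := ha (rp x) (mk_rp x)
    rw [isConj_iff] at h1
    obtain ⟨c, hc⟩ := h1
    have h2 : rp x * vl a ∈ Hh hC := by
      rw [← hc]
      exact (Hh_normal hC).conj_mem _ hx c
    have h3 : vl a ∈ Hh hC := by
      have := mul_mem (inv_mem (show rp x ∈ Hh hC from hx)) h2
      rwa [inv_mul_cancel_left] at this
    exact h3
  · intro s t hs ht x
    exact c_X hC s t (fun a ha => hs ha) (fun j hj => ht hj) x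

end clo

end Pool.Agent.Q28.TM
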