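import Pool.Agent.Q28.TM.GrpB

/-!
# Project TM, group part C: the big group and its subgroups
-/

set_option autoImplicit false

namespace Pool.Agent.Q28.TM

open Pool.Agent.Helper316 Pool.Agent.Helper316.FCV

section gam

variable {G : Type} [Group G]

/-- the big product -/
abbrev G1 (G : Type) [Group G] : Type := (XX G) × Multiplicative (Fx G)

/-- second component as a function -/
def fn (p : G1 G) : Fx G := Multiplicative.toAdd p.2

theorem fn_mul (p q : G1 G) : fn (p * q) = fn p + fn q := rfl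
theorem fn_inv (p : G1 G) : fn p⁻¹ = - fn p := rfl
theorem fn_one : fn (1 : G1 G) = 0 := rfl

theorem G1_ext {p q : G1 G} (h1 : p.1.1 = q.1.1) (h2 : fn p = fn q) : p = q := by
  apply Prod.ext
  · exact Subtype.ext h1
  · exact Multiplicative.toAdd.injective h2

/-- the relation subgroup -/
def Del (G : Type) [Group G] : Subgroup (G1 G) where
  carrier := {p | (∀ g, dl p.1.1 g ∈ Subgroup.center G) ∧ ∀ x, (fn p).1 x = - dlz p.1.1 x}
  one_mem' := by
    refine ⟨fun g => ?_, fun x => ?_⟩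
    · show dl (1 : MulAut G) g ∈ _
      rw [dl_one]; exact one_mem _
    · show (0 : ZA G) = - dlz (1 : MulAut G) x
      rw [dlz_one, neg_zero]
  mul_mem' := by
    rintro p q ⟨hp, hp'⟩ ⟨hq, hq'⟩
    refine ⟨fun g => ?_, fun x => ?_⟩
    · show dl (p.1.1 * q.1.1) g ∈ _
      rw [dl_mul, p.1.2.1.center (hq g)]; exact mul_mem (hp g) (hq g)
    · show (fn p).1 x + (fn q).1 x = - dlz (p.1.1 * q.1.1) x
      rw [dlz_mul p.1.2 q.1.2 (hp _) (hq _), hp' x, hq' x, neg_add]
  inv_mem' := by
    rintro p ⟨hp, hp'⟩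
    have h1 : ∀ g, dl (p⁻¹).1.1 g = (dl p.1.1 g)⁻¹ := by
      intro g
      show dl (p.1.1)⁻¹ g = _
      rw [dl_inv]
      congr 1
      have hinv := (inv_mem p.1.2 : (p.1.1)⁻¹ ∈ XX G)
      obtain ⟨c, hc⟩ := hinv.1 {g}
      rw [hc g (by simp)]
      exact dl_class (hp g) (hp c)
    refine ⟨fun g => ?_, fun x => ?_⟩
    · rw [h1]; exact inv_mem (hp g)
    · show - (fn p).1 x = - dlz (p⁻¹).1.1 x
      rw [hp' x, neg_neg]
      have h2 := dlz_mul p.1.2 (p⁻¹).1.2 (x := x) (hp _) (by rw [h1]; exact inv_mem (hp _))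
      have h3 : p.1.1 * (p⁻¹).1.1 = 1 := by
        show p.1.1 * (p.1.1)⁻¹ = 1
        group
      rw [h3, dlz_one] at h2
      exact eq_neg_of_add_eq_zero_left h2.symm

theorem Del_normal : (Del G).Normal := by
  constructor
  intro p hp q
  have h1 : (q * p * q⁻¹) = p := by
    apply G1_ext
    · show q.1.1 * p.1.1 * (q.1.1)⁻¹ = p.1.1
      rw [← central_of_dl hp.1 q.1.2.1]
      group
    · rw [fn_mul, fn_mul, fn_inv]
      abel
  rw [h1]
  exact hp

instance : (Del G).Normal := Del_normal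

/-- the group -/
abbrev Gam (G : Type) [Group G] : Type := G1 G ⧸ Del G

end gam

section PP

variable {G J : Type} [Group G] {k : J → ℕ} {hE : P_EXTF} {D : Dt G J k}

/-- elements of the product lying in `C` -/
def PPset (D : Dt G J k) (C : Set (Om' G J)) : Set (G1 G) :=
  {p | (Sum.inl (Sum.inr p.1.1) : Om' G J) ∈ C ∧ ∀ j, D.e (fn p) j ≠ 0 → (Sum.inr j : Om' G J) ∈ C}

/-- the subgroup -/
def PP {C : Set (Om' G J)} (hC : Closed (FF' hE D) C) : Subgroup (G1 G) where
  carrier := PPset D C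
  one_mem' := by
    refine ⟨c_x1 (closed0 hC), fun j hj => ?_⟩
    rw [fn_one, map_zero] at hj
    exact absurd rfl hj
  mul_mem' := by
    rintro p q ⟨hp, hp'⟩ ⟨hq, hq'⟩
    refine ⟨c_U2 (closed0 hC) (a := Sum.inr p.1.1) (b := Sum.inr q.1.1) hp hq, fun j hj => ?_⟩
    rw [fn_mul, map_add, DFinsupp.add_apply] at hj
    by_cases h : D.e (fn p) j = 0
    · rw [h, zero_add] at hj
      exact hq' j hj
    · exact hp' j h
  inv_mem' := by
    rintro p ⟨hp, hp'⟩
    refine ⟨((c_U1 (closed0 hC) (a := Sum.inr p.1.1) hp) p.1.2).1, fun j hj => hp' j ?_⟩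
    rw [fn_inv, map_neg, DFinsupp.neg_apply] at hj
    exact neg_ne_zero.mp hj

/-- images -/
def PG (D : Dt G J k) (C : Set (Om' G J)) : Subgroup (Gam G) :=
  Subgroup.map (QuotientGroup.mk' (Del G)) (Subgroup.closure (PPset D C))

theorem mem_PG {C : Set (Om' G J)} (hC : Closed (FF' hE D) C) (x : Gam G) :
    x ∈ PG D C ↔ ∃ p ∈ PPset D C, (QuotientGroup.mk p : Gam G) = x := by
  have h1 : Subgroup.closure (PPset D C) = PP hC := by
    have : (PPset D C) = (PP hC : Set (G1 G)) := rfl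
    rw [this, Subgroup.closure_eq]
  unfold PG
  rw [h1]
  rfl

theorem PG_mono (C C' : Set (Om' G J)) (h : C ⊆ C') : PG D C ≤ PG D C' := by
  apply Subgroup.map_mono
  apply Subgroup.closure_mono
  rintro p ⟨hp, hp'⟩
  exact ⟨h hp, fun j hj => h (hp' j hj)⟩

open Classical in
/-- finite code of an element -/
noncomputable def code (D : Dt G J k) (p : G1 G) : Finset (Om' G J) :=
  insert (Sum.inl (Sum.inr p.1.1)) ((D.e (fn p)).support.image Sum.inr)

theorem code_sub (C : Set (Om' G J)) (p : G1 G) : p ∈ PPset D C ↔ ↑(code D p) ⊆ C := by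
  classical
  constructor
  · rintro ⟨hp, hp'⟩ o ho
    rw [code, Finset.mem_coe, Finset.mem_insert] at ho
    rcases ho with rfl | ho
    · exact hp
    · obtain ⟨j, hj, rfl⟩ := Finset.mem_image.mp ho
      exact hp' j (DFinsupp.mem_support_iff.mp hj)
  · intro h
    refine ⟨h (by rw [code, Finset.mem_coe]; exact Finset.mem_insert_self _ _), fun j hj => ?_⟩
    apply h
    rw [code, Finset.mem_coe]
    apply Finset.mem_insert_of_mem
    exact Finset.mem_image_of_mem _ (DFinsupp.mem_support_iff.mpr hj)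

theorem PG_fin (C : Set (Om' G J)) (hC : Closed (FF' hE D) C) (x : Gam G) (hx : x ∈ PG D C) :
    ∃ s : Finset (Om' G J), ↑s ⊆ C ∧
      ∀ C', Closed (FF' hE D) C' → ↑s ⊆ C' → x ∈ PG D C' := by
  obtain ⟨p, hp, rfl⟩ := (mem_PG hC x).mp hx
  refine ⟨code D p, (code_sub C p).mp hp, fun C' hC' hs => ?_⟩
  exact (mem_PG hC' _).mpr ⟨p, (code_sub C' p).mpr hs, rfl⟩

open Classical in
/-- a countable code of the second component -/
noncomputable def code2 (D : Dt G J k) (p : G1 G) : Finset (Om' G J × ℕ) :=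
  (D.e (fn p)).support.image (fun j => (Sum.inr j, (D.e (fn p) j).val))

theorem code2_inj {p q : G1 G} (h : code2 D p = code2 D q) : fn p = fn q := by
  classical
  apply D.e.injective
  have key : ∀ p q : G1 G, code2 D p = code2 D q → ∀ j, D.e (fn p) j ≠ 0 →
      D.e (fn p) j = D.e (fn q) j := by
    intro p q h j hj
    have h1 : ((Sum.inr j : Om' G J), (D.e (fn p) j).val) ∈ code2 D q := by
      rw [← h, code2]
      exact Finset.mem_image_of_mem _ (DFinsupp.mem_support_iff.mpr hj)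
    obtain ⟨j', _, hj'⟩ := Finset.mem_image.mp h1
    have h2 : j' = j := Sum.inr_injective (congrArg Prod.fst hj')
    subst h2
    have h3 : (D.e (fn q) j').val = (D.e (fn p) j').val := congrArg Prod.snd hj'
    have : NeZero (k j') := ⟨(D.kpos j').ne'⟩
    exact (ZMod.val_injective _ h3).symm
  apply DFinsupp.ext
  intro j
  by_cases h1 : D.e (fn p) j = 0
  · by_cases h2 : D.e (fn q) j = 0
    · rw [h1, h2]
    · rw [key q p h.symm j h2]
  · exact key p q h j h1

theorem PPset_countable (C : Set (Om' G J)) (hc : C.Countable) : (PPset D C).Countable := by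
  classical
  have := hc.to_subtype
  let f : PPset D C → C × Finset (C × ℕ) := fun p =>
    (⟨Sum.inl (Sum.inr p.1.1.1), p.2.1⟩,
      (D.e (fn p.1)).support.attach.image (fun j =>
        (⟨Sum.inr j.1, p.2.2 j.1 (DFinsupp.mem_support_iff.mp j.2)⟩, (D.e (fn p.1) j.1).val)))
  have hf : Function.Injective f := by
    intro p q hpq
    have e1 : (Sum.inl (Sum.inr p.1.1.1) : Om' G J) = Sum.inl (Sum.inr q.1.1.1) :=
      congrArg Subtype.val (congrArg Prod.fst hpq)
    have e2 := congrArg Prod.snd hpq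
    apply Subtype.ext
    apply G1_ext
    · exact Sum.inr_injective (Sum.inl_injective e1)
    · apply code2_inj (D := D)
      have h3 : ∀ p : PPset D C, code2 D p.1 = (f p).2.image (fun u => (u.1.1, u.2)) := by
        intro p
        ext ⟨a, b⟩
        simp only [code2, f, Finset.mem_image, Finset.mem_attach, true_and, Subtype.exists,
          Prod.mk.injEq, Prod.exists]
        constructor
        · rintro ⟨j, hj, rfl, rfl⟩
          exact ⟨_, p.2.2 j (DFinsupp.mem_support_iff.mp hj), _, ⟨j, hj, rfl, rfl⟩, rfl, rfl⟩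
        · rintro ⟨a', ha', b', ⟨j, hj, h1, h2⟩, rfl, rfl⟩
          exact ⟨j, hj, congrArg Subtype.val h1, h2⟩
      rw [h3 p, h3 q, e2]
  exact hf.countable

theorem PG_normal (C : Set (Om' G J)) (hC : Closed (FF' hE D) C) : (PG D C).Normal := by
  constructor
  intro x hx y
  obtain ⟨p, ⟨hp, hp'⟩, rfl⟩ := (mem_PG hC x).mp hx
  obtain ⟨q, rfl⟩ := QuotientGroup.mk_surjective y
  refine (mem_PG hC _).mpr ⟨q * p * q⁻¹, ⟨?_, fun j => ?_⟩, rfl⟩
  · have := ((c_U1 (closed0 hC) (a := Sum.inr p.1.1) hp) p.1.2).2.1 (q.1.1)⁻¹ (inv_mem q.1.2)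
    rw [inv_inv] at this
    exact this
  · have : fn (q * p * q⁻¹) = fn p := by
      rw [fn_mul, fn_mul, fn_inv]
      abel
    rw [this]
    exact hp' j

end PP

end Pool.Agent.Q28.TM
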