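import Pool.Agent.Q28.TM.GrpC

/-!
# Project TM, group part D: the retractions
-/

set_option autoImplicit false

namespace Pool.Agent.Q28.TM

open Pool.Agent.Helper316 Pool.Agent.Helper316.FCV

section retr

variable {G J : Type} [Group G] {k : J → ℕ} {hE : P_EXTF} {D : Dt G J k}

theorem dl_li_Hh {C : Set (Om' G J)} (hC : Closed (FF' hE D) C) {y : MulAut G}
    (hy : ∀ h ∈ Hh hC, dl y h ∈ Subgroup.center G) {x : MulAut G} (hx : LI (x : G → G)) {h : G}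
    (hh : h ∈ Hh hC) : dl y (x h) = dl y h := by
  obtain ⟨c, hc⟩ := hx {h}
  rw [hc h (by simp)]
  obtain ⟨d, hd, hd'⟩ := c_conj (closed0 hC) (g := h) hh c
  rw [hd']
  exact dl_class (hy h hh) (hy d hd)

theorem exRho (hX : P_EXT) {C : Set (Om' G J)} (hC : Closed (FF' hE D) C) :
    ∃ ρ : Gam G →* Gam G, (∀ x, ρ x ∈ PG D C) ∧ ∀ x ∈ PG D C, ρ x = x := by
  classical
  obtain ⟨r, hr1, hr2⟩ := exR hC hX
  -- `r` only depends on the restriction to the classes of `H`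
  have hrY : ∀ g1 g2 : Dn (TT (G := G)) (YY (Hh hC)), (∀ x ∈ YY (Hh hC), g1.1 x = g2.1 x) →
      r g1 = r g2 := by
    intro g1 g2 h
    have h1 := hr2 0 (g1 - g2) (fun j hj => absurd (by rw [map_zero]; rfl) hj) (fun x hx => by
      show g1.1 x - g2.1 x = 0
      rw [h x hx, sub_self])
    rw [map_sub] at h1
    exact sub_eq_zero.mp h1
  choose kk hk1 hk2 hk3 using (fun x : XX G => c_exK (closed0 hC) x.2)
  replace hk3 : ∀ x : XX G, ∀ h ∈ Hh hC, dl ((kk x)⁻¹ * x.1) h ∈ Subgroup.center G :=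
    fun x h hh => hk3 x h hh
  -- the functional part
  let dd : (y : MulAut G) → (v : Fx G) → y ∈ XX G →
      (∀ h ∈ Hh hC, dl y h ∈ Subgroup.center G) → Dn (TT (G := G)) (YY (Hh hC)) :=
    fun y v hy hyc => ⟨v.1 + dlz y, add_mem (Fx_Dn v _) (dlz_Dn hC hy hyc)⟩
  have hdd : ∀ y v hy hyc x, (dd y v hy hyc).1 x = v.1 x + dlz y x := fun _ _ _ _ _ => rfl
  -- elements
  let el : (kk : XX G) → (y : MulAut G) → (v : Fx G) → y ∈ XX G →
      (∀ h ∈ Hh hC, dl y h ∈ Subgroup.center G) → G1 G :=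
    fun kk y v hy hyc => (kk, Multiplicative.ofAdd (r (dd y v hy hyc)))
  have hfn_el : ∀ kk y v hy hyc, fn (el kk y v hy hyc) = r (dd y v hy hyc) :=
    fun _ _ _ _ _ => rfl
  have hWD : ∀ (k1 k2 : XX G) (y1 y2 : MulAut G) (v : Fx G) (hy1 : y1 ∈ XX G) (hy2 : y2 ∈ XX G)
      (hc1 : ∀ h ∈ Hh hC, dl y1 h ∈ Subgroup.center G)
      (hc2 : ∀ h ∈ Hh hC, dl y2 h ∈ Subgroup.center G),
      (Sum.inr k1.1 : Om G) ∈ C0 C → (Sum.inr k2.1 : Om G) ∈ C0 C → k1.1 * y1 = k2.1 * y2 →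
      (QuotientGroup.mk (el k1 y1 v hy1 hc1) : Gam G) = QuotientGroup.mk (el k2 y2 v hy2 hc2) := by
    intro k1 k2 y1 y2 v hy1 hy2 hc1 hc2 hk1C hk2C heq
    rw [QuotientGroup.eq]
    set d := k1.1⁻¹ * k2.1 with hd
    have hdX : d ∈ XX G := mul_mem (inv_mem k1.2) k2.2
    have hdC : (Sum.inr d : Om G) ∈ C0 C := by
      have h1 := ((c_U1 (closed0 hC) (a := Sum.inr k1.1) hk1C) k1.2).1
      exact c_U2 (closed0 hC) (a := Sum.inr k1.1⁻¹) (b := Sum.inr k2.1) h1 hk2C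
    have hyd : y1 = d * y2 := by
      rw [hd, mul_assoc, ← heq]; group
    have hdl : ∀ h ∈ Hh hC, dl y1 h = dl d h * dl y2 h := by
      intro h hh
      rw [hyd, dl_mul, hdX.1.center (hc2 h hh)]
    have hdH : ∀ h ∈ Hh hC, dl d h ∈ Subgroup.center G := by
      intro h hh
      have : dl d h = dl y1 h * (dl y2 h)⁻¹ := by rw [hdl h hh]; group
      rw [this]
      exact mul_mem (hc1 h hh) (inv_mem (hc2 h hh))
    have hdG := c_cen hC hdC hdH
    refine ⟨hdG, fun x => ?_⟩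
    have hF := dlz_Fx hdX hdG
    have h1 : r ⟨dlz d, dlz_Dn hC hdX hdH⟩ = FXf d :=
      hr2 (FXf d) _ (fun j hj => c_J hC hdC j hj) (fun x _ => by rw [FXf_val hF])
    have h2 : r (dd y1 v hy1 hc1) = r (dd y2 v hy2 hc2) + FXf d := by
      rw [← h1, ← map_add]
      apply hrY
      intro x hx
      show v.1 x + dlz y1 x = (v.1 x + dlz y2 x) + dlz d x
      have h3 : dlz y1 x = dlz d x + dlz y2 x := by
        rw [hyd]
        exact dlz_mul hdX hy2 (hdH _ hx) (hc2 _ hx)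
      rw [h3]
      abel
    show - (r (dd y1 v hy1 hc1)).1 x + (r (dd y2 v hy2 hc2)).1 x = - dlz d x
    rw [h2]
    show - ((r (dd y2 v hy2 hc2)).1 x + (FXf d).1 x) + (r (dd y2 v hy2 hc2)).1 x = _
    rw [FXf_val hF]
    abel
  -- the remainder
  let yy : XX G → MulAut G := fun x => (kk x)⁻¹ * x.1
  have hyX : ∀ x, yy x ∈ XX G := fun x => mul_mem (inv_mem (hk1 x)) x.2
  let ρ0 : G1 G → Gam G := fun p => QuotientGroup.mk
    (el ⟨kk p.1, hk1 p.1⟩ (yy p.1) (fn p) (hyX p.1) (hk3 p.1))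
  have hρ0 : ∀ (p : G1 G) (k' : XX G) (y' : MulAut G) (hy' : y' ∈ XX G)
      (hc' : ∀ h ∈ Hh hC, dl y' h ∈ Subgroup.center G), (Sum.inr k'.1 : Om G) ∈ C0 C →
      p.1.1 = k'.1 * y' →
      ρ0 p = QuotientGroup.mk (el k' y' (fn p) hy' hc') := by
    intro p k' y' hy' hc' hkC heq
    refine hWD ⟨kk p.1, hk1 p.1⟩ k' (yy p.1) y' (fn p) (hyX p.1) hy'
      (hk3 p.1) hc' (hk2 p.1) hkC ?_
    show kk p.1 * ((kk p.1)⁻¹ * p.1.1) = _
    rw [← heq]; group
  have hmul : ∀ p q, ρ0 (p * q) = ρ0 p * ρ0 q := by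
    intro p q
    set kp := kk p.1
    set kq := kk q.1
    set yp := yy p.1 with hyp
    set yq := yy q.1 with hyq
    have hy'X : kq⁻¹ * yp * kq * yq ∈ XX G :=
      mul_mem (mul_mem (mul_mem (inv_mem (hk1 q.1)) (hyX p.1)) (hk1 q.1)) (hyX q.1)
    have hdl : ∀ h ∈ Hh hC, dl (kq⁻¹ * yp * kq * yq) h = dl yp h * dl yq h := by
      intro h hh
      have e1 : (kq⁻¹ * yp * kq * yq) h = h * (dl yp h * dl yq h) := by
        rw [MulAut.mul_apply, MulAut.mul_apply, MulAut.mul_apply, dl_eq yq h, map_mul,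
          (hk1 q.1).1.center (hk3 q.1 h hh), map_mul, (hyX p.1).1.center (hk3 q.1 h hh),
          dl_eq yp (kq h), dl_li_Hh hC (hk3 p.1) (hk1 q.1).1 hh, map_mul, map_mul,
          MulAut.inv_apply_self]
        have hinv := (inv_mem (hk1 q.1) : kq⁻¹ ∈ XX G)
        rw [hinv.1.center (hk3 p.1 h hh), hinv.1.center (hk3 q.1 h hh), mul_assoc]
      unfold dl at e1 ⊢
      rw [e1]
      group
    have hc' : ∀ h ∈ Hh hC, dl (kq⁻¹ * yp * kq * yq) h ∈ Subgroup.center G := by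
      intro h hh
      rw [hdl h hh]
      exact mul_mem (hk3 p.1 h hh) (hk3 q.1 h hh)
    rw [hρ0 (p * q) ⟨kp * kq, mul_mem (hk1 p.1) (hk1 q.1)⟩ _ hy'X hc'
      (c_U2 (closed0 hC) (a := Sum.inr kp) (b := Sum.inr kq) (hk2 p.1) (hk2 q.1)) (by
        show p.1.1 * q.1.1 = (kp * kq) * (kq⁻¹ * yp * kq * yq)
        have h1 : yp = kp⁻¹ * p.1.1 := rfl
        have h2 : yq = kq⁻¹ * q.1.1 := rfl
        rw [h1, h2]
        group)]
    show QuotientGroup.mk _ = QuotientGroup.mk (_ * _)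
    congr 1
    apply G1_ext
    · rfl
    · show r (dd (kq⁻¹ * yp * kq * yq) (fn p + fn q) hy'X hc') =
        r (dd yp (fn p) (hyX p.1) (hk3 p.1)) + r (dd yq (fn q) (hyX q.1) (hk3 q.1))
      rw [← map_add]
      apply hrY
      intro x hx
      show ((fn p).1 x + (fn q).1 x) + dlz (kq⁻¹ * yp * kq * yq) x =
        ((fn p).1 x + dlz yp x) + ((fn q).1 x + dlz yq x)
      have h3 : dlz (kq⁻¹ * yp * kq * yq) x = dlz yp x + dlz yq x := by
        apply vl_inj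
        rw [vl_add, vl_dlz hy'X (hc' _ hx), vl_dlz (hyX p.1) (hk3 p.1 _ hx),
          vl_dlz (hyX q.1) (hk3 q.1 _ hx), hdl _ hx]
      rw [h3]
      abel
  have hker : ∀ p ∈ Del G, ρ0 p = 1 := by
    intro p hp
    rw [hρ0 p 1 p.1.1 p.1.2 (fun h _ => hp.1 h) (c_x1 (closed0 hC)) (by simp)]
    rw [QuotientGroup.eq_one_iff]
    have : el 1 p.1.1 (fn p) p.1.2 (fun h _ => hp.1 h) = 1 := by
      apply G1_ext
      · rfl
      · show r (dd p.1.1 (fn p) p.1.2 (fun h _ => hp.1 h)) = 0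
        apply hr2 0 _ (fun j hj => absurd (by rw [map_zero]; rfl) hj)
        intro x _
        show (fn p).1 x + dlz p.1.1 x = 0
        rw [hp.2 x]
        abel
    rw [this]
    exact one_mem _
  let ρ : Gam G →* Gam G := QuotientGroup.lift (Del G) (MonoidHom.mk' ρ0 hmul) hker
  have hρmk : ∀ p : G1 G, ρ (QuotientGroup.mk p) = ρ0 p := fun p => rfl
  refine ⟨ρ, ?_, ?_⟩
  · intro x
    obtain ⟨p, rfl⟩ := QuotientGroup.mk_surjective x
    rw [hρmk]
    exact (mem_PG hC _).mpr ⟨el ⟨kk p.1, hk1 p.1⟩ (yy p.1) (fn p) (hyX p.1) (hk3 p.1),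
      ⟨hk2 p.1, fun j hj => hr1 _ j hj⟩, rfl⟩
  · intro x hx
    obtain ⟨p, ⟨hp, hp'⟩, rfl⟩ := (mem_PG hC x).mp hx
    rw [hρmk, hρ0 p p.1 1 (one_mem _) (fun h _ => by rw [dl_one]; exact one_mem _) hp (by simp)]
    congr 1
    apply G1_ext
    · rfl
    · show r (dd 1 (fn p) (one_mem _) (fun h _ => by rw [dl_one]; exact one_mem _)) = fn p
      refine hr2 (fn p) _ hp' (fun x _ => ?_)
      show (fn p).1 x + dlz 1 x = (fn p).1 x
      rw [dlz_one, add_zero]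

end retr

end Pool.Agent.Q28.TM
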