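import Pool.Agent.Q28.TM.GrpD

/-!
# Project TM, group part E: the countable case and the conclusion
-/

set_option autoImplicit false

namespace Pool.Agent.Q28.TM

open Pool.Agent.Helper316 Pool.Agent.Helper316.FCV

section lf

variable {G J : Type} [Group G] {k : J → ℕ}

/-- functions of finite range with values in a torsion group have finite order -/
theorem Fx_tors (hFC : FCG G) (v : Fx G) : ∃ n : ℕ, 0 < n ∧ n • v = 0 := by
  classical
  choose m hm1 hm2 using Zt_tors hFC
  refine ⟨∏ a ∈ v.2.2.toFinset, m a, Finset.prod_pos (fun a _ => hm1 a), ?_⟩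
  apply Subtype.ext
  funext x
  show (∏ a ∈ v.2.2.toFinset, m a) • v.1 x = 0
  have h1 : v.1 x ∈ v.2.2.toFinset := (Set.Finite.mem_toFinset _).mpr ⟨x, rfl⟩
  obtain ⟨c, hc⟩ := Finset.dvd_prod_of_mem m h1
  rw [hc, mul_comm, mul_smul, hm2, smul_zero]

theorem Gam_lf (hFC : FCG G) (x : Gam G) :
    ∃ N : Subgroup (Gam G), N.Normal ∧ (N : Set (Gam G)).Finite ∧ x ∈ N := by
  obtain ⟨p, rfl⟩ := QuotientGroup.mk_surjective x
  have h1 : ((Subgroup.normalClosure {p.1} : Subgroup (XX G)) : Set (XX G)).Finite := by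
    apply FCX.XX_fc.nc_finite _ (Set.finite_singleton _)
    intro s hs
    rw [Set.mem_singleton_iff] at hs
    rw [hs, isOfFinOrder_iff_pow_eq_one]
    exact FCX.XX_tors hFC p.1
  have h2 : ((Subgroup.zpowers p.2 : Subgroup (Multiplicative (Fx G))) :
      Set (Multiplicative (Fx G))).Finite := by
    obtain ⟨n, hn, hn'⟩ := Fx_tors hFC (Multiplicative.toAdd p.2)
    have : IsOfFinOrder p.2 := by
      rw [isOfFinOrder_iff_pow_eq_one]
      exact ⟨n, hn, hn'⟩
    exact finite_zpowers.2 this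
  have hn1 : (Subgroup.normalClosure {p.1} : Subgroup (XX G)).Normal := inferInstance
  refine ⟨((Subgroup.normalClosure {p.1}).prod (Subgroup.zpowers p.2)).map
    (QuotientGroup.mk' (Del G)), ?_, ?_, ?_⟩
  · have : ((Subgroup.normalClosure {p.1}).prod (Subgroup.zpowers p.2)).Normal := inferInstance
    exact this.map _ (QuotientGroup.mk'_surjective _)
  · rw [Subgroup.coe_map]
    apply Set.Finite.image
    rw [Subgroup.coe_prod]
    exact h1.prod h2
  · exact ⟨p, ⟨Subgroup.subset_normalClosure rfl, Subgroup.mem_zpowers _⟩, rfl⟩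

theorem LI_class {y : MulAut G} (hy : LI (y : G → G)) (g : G) :
    ConjClasses.mk (y g) = ConjClasses.mk g := by
  obtain ⟨c, hc⟩ := hy {g}
  rw [hc g (by simp), ConjClasses.mk_eq_mk_iff_isConj, isConj_iff]
  exact ⟨c, by group⟩

/-- the action on a class and the value there -/
noncomputable def ev (x : ConjClasses G) :
    G1 G →* Equiv.Perm {g : G // ConjClasses.mk g = x} × Multiplicative (TT x) where
  toFun p := (⟨fun g => ⟨p.1.1 g.1, by rw [LI_class p.1.2.1, g.2]⟩,
      fun g => ⟨(p.1.1)⁻¹ g.1, by rw [LI_class (inv_mem p.1.2 : (p.1.1)⁻¹ ∈ XX G).1, g.2]⟩,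
      fun g => Subtype.ext (MulAut.inv_apply_self _ _ _),
      fun g => Subtype.ext (MulAut.apply_inv_self _ _ _)⟩,
    Multiplicative.ofAdd ⟨(fn p).1 x, (fn p).2.1 x⟩)
  map_one' := by
    apply Prod.ext
    · apply Equiv.ext
      intro g
      rfl
    · rfl
  map_mul' p q := by
    apply Prod.ext
    · apply Equiv.ext
      intro g
      rfl
    · rfl

theorem mem_ev {x : ConjClasses G} {p : G1 G} (h : p ∈ (ev x).ker) :
    (∀ g, ConjClasses.mk g = x → p.1.1 g = g) ∧ (fn p).1 x = 0 := by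
  have h1 : ev x p = 1 := h
  constructor
  · intro g hg
    have h2 := congrArg (fun u => (u.1 ⟨g, hg⟩).1) h1
    exact h2
  · have h2 := congrArg (fun u => (Multiplicative.toAdd u.2).1) h1
    exact h2

theorem ev_fi (hFC : FCG G) (x : ConjClasses G) : (ev x).ker.FiniteIndex := by
  have h1 : Finite {g : G // ConjClasses.mk g = x} := by
    obtain ⟨u, rfl⟩ := ConjClasses.exists_rep x
    have := hFC u
    refine Set.Finite.to_subtype (s := {g : G | ConjClasses.mk g = ConjClasses.mk u}) ?_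
    refine this.subset ?_
    intro g hg
    exact (ConjClasses.mk_eq_mk_iff_isConj.mp hg).symm
  have h2 : Finite (TT x) := (TT_finite hFC x).to_subtype
  have h3 : Finite (Multiplicative (TT x)) := h2
  infer_instance

theorem Gam_rf (hFC : FCG G) (x : Gam G) (hx : x ≠ 1) :
    ∃ N : Subgroup (Gam G), N.Normal ∧ N.FiniteIndex ∧ x ∉ N := by
  classical
  obtain ⟨p, rfl⟩ := QuotientGroup.mk_surjective x
  have hp : p ∉ Del G := fun h => hx ((QuotientGroup.eq_one_iff p).mpr h)
  have key : ∃ u : ConjClasses G, ∀ n ∈ (ev u).ker, ∀ d ∈ Del G, p ≠ n * d := by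
    by_contra hcon
    push Not at hcon
    apply hp
    have h1 : ∀ g, dl p.1.1 g ∈ Subgroup.center G := by
      intro g
      obtain ⟨n, hn, d, hd, he⟩ := hcon (ConjClasses.mk g)
      have h2 := (mem_ev hn).1 g rfl
      have h3 : dl p.1.1 g = dl n.1.1 g * dl d.1.1 g := by
        rw [he]
        show dl (n.1.1 * d.1.1) g = _
        rw [dl_mul, n.1.2.1.center (hd.1 g)]
      rw [h3]
      have h4 : dl n.1.1 g = 1 := by
        show g⁻¹ * n.1.1 g = 1
        rw [h2, inv_mul_cancel]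
      rw [h4, one_mul]
      exact hd.1 g
    refine ⟨h1, fun u => ?_⟩
    obtain ⟨n, hn, d, hd, he⟩ := hcon u
    have h2 := (mem_ev hn).1 (rp u) (mk_rp u)
    have h4 : dl n.1.1 (rp u) = 1 := by
      show (rp u)⁻¹ * n.1.1 (rp u) = 1
      rw [h2, inv_mul_cancel]
    have h5 : dlz p.1.1 u = dlz d.1.1 u := by
      apply vl_inj
      rw [vl_dlz p.1.2 (h1 _), vl_dlz d.1.2 (hd.1 _), he]
      show dl (n.1.1 * d.1.1) (rp u) = _
      rw [dl_mul, n.1.2.1.center (hd.1 _), h4, one_mul]
    rw [h5, ← hd.2 u, he]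
    show (fn n).1 u + (fn d).1 u = (fn d).1 u
    rw [(mem_ev hn).2, zero_add]
  obtain ⟨u, hu⟩ := key
  have hfi := ev_fi hFC u
  refine ⟨(ev u).ker.map (QuotientGroup.mk' (Del G)), ?_, ?_, ?_⟩
  · exact (inferInstance : (ev u).ker.Normal).map _ (QuotientGroup.mk'_surjective _)
  · constructor
    intro h0
    have := Subgroup.index_map_dvd (ev u).ker (QuotientGroup.mk'_surjective (Del G))
    rw [h0, zero_dvd_iff] at this
    exact hfi.index_ne_zero this
  · rintro ⟨q, hq, hqp⟩
    have h1 : q⁻¹ * p ∈ Del G := QuotientGroup.eq.mp hqp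
    exact hu q hq _ h1 (by group)

theorem PG_base {hE : P_EXTF} {D : Dt G J k} (C : Set (Om' G J)) (hC : Closed (FF' hE D) C)
    (hc : C.Countable) : FCZ.FC.SDF (PG D C) := by
  have hcount : Countable (PG D C) := by
    have h1 := (PPset_countable (D := D) C hc).image (fun p => (QuotientGroup.mk p : Gam G))
    refine Set.Countable.mono ?_ h1
    intro x hx
    obtain ⟨p, hp, hpx⟩ := (mem_PG hC x).mp hx
    exact ⟨p, hp, hpx⟩
  apply FCZ.FC.SDF.of_countable
  · intro x
    obtain ⟨N, h1, h2, h3⟩ := Gam_lf D.fc x.1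
    refine ⟨N.subgroupOf (PG D C), ?_, ?_, h3⟩
    · exact Subgroup.Normal.subgroupOf h1 _
    · exact Set.Finite.preimage (f := (Subtype.val : PG D C → Gam G))
        (Subtype.val_injective.injOn) h2
  · intro x hx
    obtain ⟨N, h1, h2, h3⟩ := Gam_rf D.fc x.1 (fun h => hx (Subtype.ext h))
    exact ⟨N.subgroupOf (PG D C), Subgroup.Normal.subgroupOf h1 _, inferInstance, h3⟩

theorem Gam_SDF (hE : P_EXTF) (hX : P_EXT) (D : Dt G J k) : FCZ.FC.SDF (Gam G) := by
  have h1 := FCZ.FC.SDF.of_system (FF' hE D) (FF'_countable hE D) (PG D)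
    (fun C hC => PG_normal (hE := hE) C hC) (fun C C' h => PG_mono C C' h)
    (fun C hC x hx => PG_fin (hE := hE) C hC x hx)
    (fun C hC => exRho (hE := hE) hX hC) (fun C hC hc => PG_base (hE := hE) C hC hc)
    Set.univ (fun s _ => Set.subset_univ _)
  have h2 : ∀ x : Gam G, x ∈ PG D Set.univ := by
    intro x
    obtain ⟨p, rfl⟩ := QuotientGroup.mk_surjective x
    exact (mem_PG (hE := hE) (fun s _ => Set.subset_univ _) _).mpr
      ⟨p, ⟨trivial, fun j _ => trivial⟩, rfl⟩
  let φ : Gam G →* PG D Set.univ :=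
    { toFun := fun x => ⟨x, h2 x⟩
      map_one' := rfl
      map_mul' := fun _ _ => rfl }
  exact h1.comap φ (fun a b hab => congrArg Subtype.val hab)

theorem exists_emb (hFC : FCG G) : ∃ ψ : G ⧸ Subgroup.center G →* Gam G, Function.Injective ψ := by
  let φ : G →* Gam G :=
    (QuotientGroup.mk' (Del G)).comp
    { toFun := fun g => (⟨MulAut.conj g, conj_mem_XX hFC g⟩, 1)
      map_one' := by
        apply Prod.ext
        · apply Subtype.ext
          simp
        · rfl
      map_mul' := fun a b => by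
        apply Prod.ext
        · apply Subtype.ext
          simp
        · simp }
  have hker : ∀ g, φ g = 1 ↔ g ∈ Subgroup.center G := by
    intro g
    rw [Subgroup.mem_center_iff]
    constructor
    · intro h a
      have h0 : (((⟨MulAut.conj g, conj_mem_XX hFC g⟩, 1) : G1 G)) ∈ Del G :=
        (QuotientGroup.eq_one_iff _).mp h
      obtain ⟨h1, h2⟩ := h0
      have hX : MulAut.conj g ∈ XX G := conj_mem_XX hFC g
      have h3 : ∀ x, dl (MulAut.conj g) (rp x) = 1 := by
        intro x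
        rw [← vl_dlz hX (h1 _)]
        have h4 : (0 : ZA G) = - dlz (MulAut.conj g) x := h2 x
        have h5 : dlz (MulAut.conj g) x = 0 := neg_eq_zero.mp h4.symm
        rw [h5, vl_zero]
      have h4 : dl (MulAut.conj g) a = 1 := by
        have h5 := rp_conj a
        rw [isConj_iff] at h5
        obtain ⟨c, hc⟩ := h5
        have h6 : a = (c⁻¹)⁻¹ * rp (ConjClasses.mk a) * c⁻¹ := by rw [inv_inv]; exact hc.symm
        rw [h6, dl_class (h1 _) (h1 _), h3]
      have h5 : MulAut.conj g a = a := by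
        rw [dl_eq, h4, mul_one]
      rw [MulAut.conj_apply] at h5
      calc a * g = (g * a * g⁻¹) * g := by rw [h5]
        _ = g * a := by group
    · intro h
      have h1 : (((⟨MulAut.conj g, conj_mem_XX hFC g⟩, 1) : G1 G)) = 1 := by
        apply Prod.ext
        · apply Subtype.ext
          ext a
          show g * a * g⁻¹ = a
          rw [← h a]; group
        · rfl
      show (QuotientGroup.mk' (Del G)) (((⟨MulAut.conj g, conj_mem_XX hFC g⟩, 1) : G1 G)) = 1
      rw [h1, map_one]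
  refine ⟨QuotientGroup.lift _ φ (fun g hg => (hker g).mpr hg), ?_⟩
  rw [injective_iff_map_eq_one]
  intro x hx
  obtain ⟨g, rfl⟩ := QuotientGroup.mk_surjective x
  rw [QuotientGroup.eq_one_iff]
  exact (hker g).mp hx

end lf

/-- the theorem, from the lemma jobs -/
theorem main_sep (hFA : P_FA) (hE : P_EXTF) (hX : P_EXT) (G : Type) [Group G]
    (hFC : ∀ g : G, {h : G | IsConj g h}.Finite)
    (hsep : ∀ z : G, z ∈ Subgroup.center G → z ∈ commutator G → z ≠ 1 → ∃ n : ℕ, 0 < n ∧
      ∀ w : G, w ∈ Subgroup.center G → w ∈ commutator G → w ^ n ≠ z) :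
    ∃ (ι : Type) (F : ι → Type) (_ : ∀ i, Group (F i)) (_ : ∀ i, Finite (F i))
        (f : (G ⧸ Subgroup.center G) →* ((i : ι) → F i)),
        Function.Injective f ∧ ∀ x, {i : ι | f x i ≠ 1}.Finite := by
  obtain ⟨J, k, hk, ⟨e⟩⟩ := hFA (ConjClasses G) (ZA G) TT (TT_finite hFC) (Zt_tors hFC) (by
    intro a ha
    obtain ⟨n, hn, h⟩ := hsep (vl a) (vl_center a) (vl_comm a) (fun h => ha (vl_inj (by
      rw [h, vl_zero])))
    refine ⟨n, hn, fun b hb => h (vl b) (vl_center b) (vl_comm b) ?_⟩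
    rw [hb, vl_nsmul])
  obtain ⟨ψ, hψ⟩ := exists_emb hFC
  exact ((Gam_SDF hE hX (⟨hFC, hk, e⟩ : Dt G J k)).comap ψ hψ).toProd

/-- the residual condition implies the separation condition -/
theorem sep_of_res {G : Type} [Group G]
    (hres : ∀ g : G, g ≠ 1 → ∃ (N : Subgroup G) (_ : N.Normal), g ∉ N ∧
      Finite ↥(commutator (G ⧸ N))) (z : G) (hz : z ∈ Subgroup.center G) (hz' : z ∈ commutator G)
    (h : z ≠ 1) : ∃ n : ℕ, 0 < n ∧
      ∀ w : G, w ∈ Subgroup.center G → w ∈ commutator G → w ^ n ≠ z := by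
  obtain ⟨n, hn, h1⟩ := Zt_sep hres (mkz z hz hz') (fun h' => h (by
    rw [← vl_mkz z hz hz', h', vl_zero]))
  refine ⟨n, hn, fun w hw hw' he => h1 (mkz w hw hw') (vl_inj ?_)⟩
  rw [vl_nsmul, vl_mkz, vl_mkz, he]

end Pool.Agent.Q28.TM
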