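import Pool.Agent.Q28.TM.Defs

/-!
# Motives with small motivic Galois groups
-/

open CategoryTheory MonoidalCategory Limits

universe v u w

namespace Pool.Agent.Q28.TM

section Torus

variable {Γ : Type} [Group Γ] [TopologicalSpace Γ] {c : Γ}

/-- the Galois action as a representation -/
def TorusDatum.ρ (D : TorusDatum Γ c) : Representation ℚ Γ D.X where
  toFun g := { toFun := D.act g, map_add' := D.add g, map_smul' := fun a x => D.smul g a x }
  map_one' := LinearMap.ext fun x => D.one x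
  map_mul' g h := LinearMap.ext fun x => D.mul g h x

lemma TorusDatum.ρ_act (D : TorusDatum Γ c) (g : Γ) (x : D.X) : D.ρ g x = D.act g x := rfl

lemma TorusDatum.conj' (D : TorusDatum Γ c) (g : Γ) : D.ρ c (D.ρ g D.μ) = D.w - D.ρ g D.μ :=
  D.conj g

lemma TorusDatum.fix' (D : TorusDatum Γ c) (g : Γ) : D.ρ g D.w = D.w := D.fix g

lemma TorusDatum.finite (D : TorusDatum Γ c) : Module.Finite ℚ D.X := by
  have h : (Set.range fun g => D.act g D.μ).Finite := by
    have : (Set.range fun g => D.act g D.μ) = (fun f : D.X → D.X => f D.μ) ''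
        (Set.range D.act) := by
      ext x; simp
    rw [this]
    exact D.fin.image _
  rw [Module.finite_def, ← D.gen (Submodule.span ℚ (Set.range fun g => D.act g D.μ))
    (fun g => Submodule.subset_span ⟨g, rfl⟩)]
  exact Submodule.fg_span h

/-- the antiinvariant part of the Hodge cocharacter -/
def TorusDatum.δ (D : TorusDatum Γ c) : D.X := (2 : ℚ) • D.μ - D.w

lemma TorusDatum.smul_δ (D : TorusDatum Γ c) (g : Γ) :
    D.ρ g D.δ = (2 : ℚ) • D.ρ g D.μ - D.w := by
  rw [TorusDatum.δ, map_sub, map_smul, D.fix']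

lemma TorusDatum.conj_δ (D : TorusDatum Γ c) (g : Γ) : D.ρ c (D.ρ g D.δ) = -D.ρ g D.δ := by
  rw [D.smul_δ, map_sub, map_smul, D.conj', D.fix']
  module

lemma TorusDatum.mu_eq (D : TorusDatum Γ c) (g : Γ) :
    D.ρ g D.μ = (1 / 2 : ℚ) • (D.w + D.ρ g D.δ) := by
  rw [D.smul_δ]
  module

/-- if the torus has dimension at most one, or two and a nonzero weight, the line of `δ` is stable -/
lemma TorusDatum.eigen (D : TorusDatum Γ c) (h : Module.finrank ℚ D.X ≤ 1 ∨
    Module.finrank ℚ D.X = 2 ∧ D.w ≠ 0) (hδ : D.δ ≠ 0) (g : Γ) :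
    ∃ b : ℚ, D.ρ g D.δ = b • D.δ := by
  have := D.finite
  rcases h with h | ⟨h, hw⟩
  · obtain ⟨v, hv⟩ := finrank_le_one_iff.1 h
    obtain ⟨a, ha⟩ := hv D.δ
    obtain ⟨b, hb⟩ := hv (D.ρ g D.δ)
    have ha0 : a ≠ 0 := by
      rintro rfl
      apply hδ
      rw [← ha, zero_smul]
    refine ⟨b / a, ?_⟩
    rw [← hb, ← ha, smul_smul, div_mul_cancel₀ b ha0]
  · have hc : D.ρ c D.δ = -D.δ := by simpa using D.conj_δ 1
    have hli : LinearIndependent ℚ ![D.w, D.δ] := by
      rw [LinearIndependent.pair_iff]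
      intro s t hst
      have h1 := congrArg (D.ρ c) hst
      rw [map_add, map_smul, map_smul, D.fix', hc, map_zero] at h1
      have h2 : (2 * s) • D.w = 0 := by
        have := congrArg₂ (· + ·) hst h1
        simp only [add_zero] at this
        rw [← this]
        module
      have hs : s = 0 := by
        rcases smul_eq_zero.1 h2 with h3 | h3
        · linarith
        · exact absurd h3 hw
      refine ⟨hs, ?_⟩
      rw [hs, zero_smul, zero_add] at hst
      rcases smul_eq_zero.1 hst with h3 | h3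
      · exact h3
      · exact absurd h3 hδ
    have hsp : Submodule.span ℚ (Set.range ![D.w, D.δ]) = ⊤ :=
      hli.span_eq_top_of_card_eq_finrank' (by simp [h])
    have hm : D.ρ g D.δ ∈ Submodule.span ℚ ({D.w, D.δ} : Set D.X) := by
      have : (Set.range ![D.w, D.δ]) = {D.w, D.δ} := by
        ext x
        simp only [Set.mem_range, Fin.exists_fin_two, Matrix.cons_val_zero, Matrix.cons_val_one,
          Set.mem_insert_iff, Set.mem_singleton_iff, eq_comm]
      rw [← this, hsp]
      trivial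
    obtain ⟨a, b, hab⟩ := Submodule.mem_span_pair.1 hm
    have h1 := D.conj_δ g
    rw [← hab, map_add, map_smul, map_smul, D.fix', hc] at h1
    have h2 : (2 * a) • D.w = 0 := by
      have h3 : (a • D.w + b • -D.δ) - -(a • D.w + b • D.δ) = 0 := by rw [h1]; simp
      rw [← h3]
      module
    have ha : a = 0 := by
      rcases smul_eq_zero.1 h2 with h3 | h3
      · linarith
      · exact absurd h3 hw
    exact ⟨b, by rw [← hab, ha]; simp⟩

/-- a rational number with finitely many powers is `0`, `1` or `-1` -/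
lemma rat_pow_finite (b : ℚ) (hb : b ≠ 0) (h : (Set.range fun n : ℕ => b ^ n).Finite) :
    b = 1 ∨ b = -1 := by
  have h1 : ¬ Function.Injective fun n : ℕ => b ^ n := by
    intro hi
    exact Set.infinite_range_of_injective hi h
  simp only [Function.Injective, not_forall] at h1
  obtain ⟨m, n, hmn, hne⟩ := h1
  have h2 : ∃ k : ℕ, k ≠ 0 ∧ b ^ k = 1 := by
    rcases lt_or_gt_of_ne hne with h | h
    · refine ⟨n - m, by omega, ?_⟩
      have : b ^ m * b ^ (n - m) = b ^ m * 1 := by
        rw [← pow_add, mul_one]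
        have : m + (n - m) = n := by omega
        rw [this]; exact hmn.symm
      exact mul_left_cancel₀ (pow_ne_zero m hb) this
    · refine ⟨m - n, by omega, ?_⟩
      have : b ^ n * b ^ (m - n) = b ^ n * 1 := by
        rw [← pow_add, mul_one]
        have : n + (m - n) = m := by omega
        rw [this]; exact hmn
      exact mul_left_cancel₀ (pow_ne_zero n hb) this
  obtain ⟨k, hk, hbk⟩ := h2
  have h3 : |b| ^ k = 1 := by rw [← abs_pow, hbk, abs_one]
  have h4 : |b| = 1 := (pow_eq_one_iff_of_nonneg (abs_nonneg b) hk).1 h3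
  exact (abs_eq (by norm_num)).1 h4

/-- the quadratic character -/
lemma TorusDatum.character [IsTopologicalGroup Γ] (D : TorusDatum Γ c) (h : Module.finrank ℚ D.X ≤ 1 ∨
    Module.finrank ℚ D.X = 2 ∧ D.w ≠ 0) (hδ : D.δ ≠ 0) :
    ∃ χ : Γ → ℚ, IsQuadratic c χ ∧ ∀ g, D.ρ g D.δ = χ g • D.δ := by
  choose b hb using D.eigen h hδ
  have hinj : ∀ x y : ℚ, x • D.δ = y • D.δ → x = y := fun x y hxy => by
    have : (x - y) • D.δ = 0 := by rw [sub_smul, hxy, sub_self]
    rcases smul_eq_zero.1 this with h3 | h3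
    · linarith
    · exact absurd h3 hδ
  have hmul : ∀ g g', b (g * g') = b g * b g' := by
    intro g g'
    apply hinj
    rw [← hb, map_mul, Module.End.mul_apply, hb g', map_smul, hb g, smul_smul, mul_comm]
  have h1 : b 1 = 1 := by
    apply hinj
    rw [← hb, map_one, Module.End.one_apply, one_smul]
  have hpow : ∀ g (n : ℕ), b (g ^ n) = b g ^ n := by
    intro g n
    induction n with
    | zero => simp [h1]
    | succ n ih => rw [pow_succ, hmul, ih, pow_succ]
  have hne : ∀ g, b g ≠ 0 := by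
    intro g h0
    have := hmul g g⁻¹
    rw [mul_inv_cancel, h1, h0, zero_mul] at this
    exact one_ne_zero this
  have hfin : (Set.range b).Finite := by
    have h2 : (fun x : ℚ => x • D.δ) '' (Set.range b) ⊆
        (fun f : D.X → D.X => f D.δ) '' (Set.range D.act) := by
      rintro _ ⟨_, ⟨g, rfl⟩, rfl⟩
      exact ⟨_, ⟨g, rfl⟩, hb g⟩
    exact Set.Finite.of_finite_image ((D.fin.image _).subset h2) (fun x _ y _ hxy => hinj x y hxy)
  have hpm : ∀ g, b g = 1 ∨ b g = -1 := by
    intro g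
    refine rat_pow_finite _ (hne g) (hfin.subset ?_)
    rintro _ ⟨n, rfl⟩
    exact ⟨g ^ n, hpow g n⟩
  refine ⟨b, ⟨hpm, hmul, ?_, ?_⟩, hb⟩
  · let B : Subgroup Γ :=
      { carrier := {g | b g = 1}
        mul_mem' := fun {a a'} ha ha' => by
          simp only [Set.mem_ofPred_eq] at *
          rw [hmul, ha, ha', one_mul]
        one_mem' := h1
        inv_mem' := fun {a} ha => by
          simp only [Set.mem_ofPred_eq] at *
          have h3 := hmul a⁻¹ a
          rw [inv_mul_cancel, h1, ha, mul_one] at h3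
          exact h3.symm }
    let K : Subgroup Γ :=
      { carrier := {g | ∀ x, D.act g x = x}
        mul_mem' := fun {a a'} ha ha' => by
          simp only [Set.mem_ofPred_eq] at *
          intro x
          rw [D.mul, ha', ha]
        one_mem' := D.one
        inv_mem' := fun {a} ha => by
          simp only [Set.mem_ofPred_eq] at *
          intro x
          have h3 := D.mul a⁻¹ a x
          rw [inv_mul_cancel, D.one, ha] at h3
          exact h3.symm }
    have hK : K ≤ B := by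
      intro g hg
      change b g = 1
      apply hinj
      rw [← hb, one_smul]
      exact hg D.δ
    exact Subgroup.isOpen_mono hK D.open_ker
  · apply hinj
    rw [← hb]
    have := D.conj_δ 1
    simpa using this

lemma joint_le (D E : TorusDatum Γ c) {χ : Γ → ℚ}
    (hD : ∀ g, D.ρ g D.δ = χ g • D.δ) (hE : ∀ g, E.ρ g E.δ = χ g • E.δ) :
    jointDim D E ≤ 2 := by
  classical
  have h : Submodule.span ℚ (Set.range fun g => (D.act g D.μ, E.act g E.μ)) ≤
      Submodule.span ℚ (({(D.w, E.w), (D.δ, E.δ)} : Finset (D.X × E.X)) : Set (D.X × E.X)) := by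
    rw [Submodule.span_le]
    rintro _ ⟨g, rfl⟩
    rw [Finset.coe_insert, Finset.coe_singleton]
    refine Submodule.mem_span_pair.2 ⟨1 / 2, χ g / 2, ?_⟩
    have e1 : (1 / 2 : ℚ) • D.w + (χ g / 2) • D.δ = D.ρ g D.μ := by
      rw [D.mu_eq, hD]
      module
    have e2 : (1 / 2 : ℚ) • E.w + (χ g / 2) • E.δ = E.ρ g E.μ := by
      rw [E.mu_eq, hE]
      module
    exact Prod.ext e1 e2
  have := D.finite
  have := E.finite
  refine (Submodule.finrank_mono h).trans ((finrank_span_finset_le_card _).trans ?_)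
  exact Finset.card_le_two

end Torus

variable {𝓜 : Type u} [Category.{v} 𝓜] [Preadditive 𝓜] [MonoidalCategory 𝓜]
  [Limits.HasBinaryBiproducts 𝓜] {Γ : Type} [Group Γ] [TopologicalSpace Γ] {c : Γ}
  {T : AbelianMotives.{v, u, w} 𝓜 Γ c}

namespace AbelianMotives

lemma below_left (M N : 𝓜) : Below T.L (M ⊞ N) M :=
  .summand .self ⟨⟨biprod.inl, biprod.fst, by simp⟩⟩

lemma below_right (M N : 𝓜) : Below T.L (M ⊞ N) N :=
  .summand .self ⟨⟨biprod.inr, biprod.snd, by simp⟩⟩

lemma pc_below (hT : T.Facts) {M N : 𝓜} (h : Below T.L M N) (hM : T.PC M) : T.PC N := by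
  have h1 := hT.fibre M N h
  have h2 := hT.le N
  unfold PC at *
  omega

variable [IsTopologicalGroup Γ]

/-- a motive with a small group has, together with an elliptic curve, a group of dimension two -/
lemma joint_elliptic (hT : T.Facts) {M : 𝓜} (h : T.gdim M ≤ 1 ∨ T.gdim M = 2 ∧
    ∃ n, 0 < n ∧ Below T.L M (HJ.pow T.L n)) : ∃ E, T.AV E ∧ T.gdim (M ⊞ E) ≤ 2 := by
  obtain ⟨D, hD⟩ := hT.torus M (by omega)
  have hd := hT.datum_dim M D hD
  have h' : Module.finrank ℚ D.X ≤ 1 ∨ Module.finrank ℚ D.X = 2 ∧ D.w ≠ 0 := by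
    rcases h with h | ⟨h, n, hn, hb⟩
    · exact Or.inl (hd ▸ h)
    · exact Or.inr ⟨hd ▸ h, hT.weight M D n hD hn hb⟩
  obtain ⟨χ, hχ, hχD⟩ : ∃ χ : Γ → ℚ, IsQuadratic c χ ∧ ∀ g, D.ρ g D.δ = χ g • D.δ := by
    by_cases hδ : D.δ = 0
    · obtain ⟨χ, hχ⟩ := hT.quadratic
      exact ⟨χ, hχ, fun g => by rw [hδ, map_zero, smul_zero]⟩
    · exact D.character h' hδ
  obtain ⟨E, F, hE, hF, hell⟩ := hT.elliptic χ hχ
  refine ⟨E, hE, ?_⟩
  rw [hT.joint M E D F hD hF]
  exact joint_le D F hχD hell.delta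

lemma pc_small (hT : T.Facts) {M : 𝓜} (h : T.gdim M ≤ 1 ∨ T.gdim M = 2 ∧
    ∃ n, 0 < n ∧ Below T.L M (HJ.pow T.L n)) : T.PC M := by
  obtain ⟨E, hE, h2⟩ := joint_elliptic hT h
  have h3 := hT.chudnovsky E hE
  have h4 := (hT.mono _ _ (below_right M E)).1
  have h5 := hT.le (M ⊞ E)
  exact pc_below hT (below_left M E) (show T.trdeg (M ⊞ E) = T.gdim (M ⊞ E) by omega)

omit [IsTopologicalGroup Γ] in
/-- isogeny invariance -/
lemma isogeny (hT : T.Facts) {M N : 𝓜} (h : T.gdim (M ⊞ N) ≤ T.gdim M)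
    (h' : T.gdim (M ⊞ N) ≤ T.gdim N) : T.trdeg M = T.trdeg N ∧ T.gdim M = T.gdim N := by
  have h1 := hT.mono _ _ (below_left (T := T) M N)
  have h2 := hT.mono _ _ (below_right (T := T) M N)
  have h3 := hT.fibre _ _ (below_left M N)
  have h4 := hT.fibre _ _ (below_right M N)
  omega

/-- main theorem -/
theorem final (hT : T.Facts) :
    (∀ M, T.Small M → T.PCAll M) ∧
    (∀ X, T.gdim (T.h X) ≤ 2 → T.PCAll (T.h X)) ∧
    (∀ X, T.K3Type X → 2 ≤ T.trdeg (T.h X) ∧ (T.trank X = 2 → T.PCAll (T.h X)) ∧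
      ∃ A, T.AV A ∧ T.trdeg (T.h X) = T.trdeg A ∧ T.gdim (T.h X) = T.gdim A) := by
  have h2 : ∀ X, T.gdim (T.h X) ≤ 2 → ∀ N, Below T.L (T.h X) N → T.PC N := by
    intro X hX N hN
    refine pc_below hT hN (pc_small hT ?_)
    rcases Nat.eq_zero_or_pos (T.dim X) with h0 | h0
    · left
      rw [hT.point X h0]
      omega
    · by_cases h1 : T.gdim (T.h X) ≤ 1
      · exact Or.inl h1
      · exact Or.inr ⟨by omega, _, h0, .summand .self (hT.top X)⟩
  refine ⟨fun M hM N hN => pc_below hT hN (pc_small hT hM), h2, fun X hX => ?_⟩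
  obtain ⟨A, hA, a1, a2⟩ := hT.kugaSatake X hX
  obtain ⟨e1, e2⟩ := isogeny hT a1 a2
  refine ⟨?_, fun h => h2 X (hT.rank_two X hX h), A, hA, e1, e2⟩
  rw [e1]
  exact hT.chudnovsky A hA

end AbelianMotives

end Pool.Agent.Q28.TM
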