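import Mathlib
import Pool.Agent.Helper316.FCW

/-!
# Project TM: Tomkinson's question on FC-groups, all cardinalities

Statements of the lemma jobs, with complete proofs in the docstrings.  `K` is always a field,
`X → K` the space of all functions, `T x` a FINITE subset of `W` for every `x`.
-/

set_option autoImplicit false

namespace Pool.Agent.Q28.TM

open Pool.Agent.Helper316

section theta

variable {X W K : Type} [Field K]

open Classical in
/-- `ind T F r` : the function `r` cut off to the points `x` with `F ⊆ T x`. -/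
noncomputable def ind (T : X → Set W) (F : Finset W) : (X → K) →ₗ[K] (X → K) where
  toFun r := fun x => if (F : Set W) ⊆ T x then r x else 0
  map_add' r s := by
    funext x
    by_cases h : (F : Set W) ⊆ T x <;> simp [h]
  map_smul' c r := by
    funext x
    by_cases h : (F : Set W) ⊆ T x <;> simp [h]

/-- `JJ T F r` : the support of `r` consists of points `x` with `F ⊆ T x` such that moreover
`T x` contains one of finitely many given elements outside `F`. -/
def JJ (T : X → Set W) (F : Finset W) (r : X → K) : Prop :=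
  ∃ H : Finset W, (∀ t ∈ H, t ∉ F) ∧ ∀ x, r x ≠ 0 → (F : Set W) ⊆ T x ∧ ∃ t ∈ H, t ∈ T x

/-- the property of the projections `κ F` -/
def KapOK (T : X → Set W) (κ : Finset W → (X → K) →ₗ[K] (X → K)) : Prop :=
  ∀ F, (∀ u, JJ T F (ind T F u - κ F u)) ∧ ∀ u, JJ T F (ind T F u) → κ F u = 0

/-- closed pairs: `A` a set of elements of `W`, `B` a set of functions -/
structure PairOK (T : X → Set W) (κ : Finset W → (X → K) →ₗ[K] (X → K))
    (A : Set W) (B : AddSubgroup (X → K)) : Prop where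
  kap : ∀ F : Finset W, ↑F ⊆ A → ∀ u ∈ B, κ F u ∈ B
  cut : ∀ F : Finset W, ↑F ⊆ A → ∀ u ∈ B, ind T F u ∈ B
  wit : ∀ F : Finset W, ↑F ⊆ A → ∀ u ∈ B, JJ T F u →
    ∃ H : Finset W, ↑H ⊆ A ∧ (∀ t ∈ H, t ∉ F) ∧ ∀ x, u x ≠ 0 → (F : Set W) ⊆ T x ∧ ∃ t ∈ H, t ∈ T x

/-- the properties of the operators `Θ G` -/
structure ThOK (T : X → Set W) (κ : Finset W → (X → K) →ₗ[K] (X → K))
    (Θ : Finset W → (X → K) →ₗ[K] (X → K)) : Prop where
  zero : ∀ (G : Finset W) (r : X → K), (∀ x, r x ≠ 0 → ∃ g ∈ G, g ∈ T x) → Θ G r = 0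
  one : ∀ r : X → K, Θ ∅ r = r
  loc : ∀ (A : Set W) (B : AddSubgroup (X → K)), PairOK T κ A B → ∀ r ∈ B,
    ∀ G G' : Finset W, (∀ w ∈ A, (w ∈ G ↔ w ∈ G')) → Θ G r = Θ G' r

end theta

/-- JOB KAP (20 minutes).  PROOF.  Fix `F`.  `{r | JJ T F r}` is a submodule `I` of `X → K`
(`H := ∅` for zero, union of the two `H` for sums).  Let `q := I.mkQ ∘ ind T F`, let `s` be a linear
right inverse of `I.mkQ` (`LinearMap.exists_rightInverse_of_surjective`, `K` is a field) and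
`κ F := s ∘ q`.  Then `I.mkQ (ind T F u - κ F u) = 0`, so `JJ T F (ind T F u - κ F u)`; and
if `JJ T F (ind T F u)` then `q u = 0`, so `κ F u = 0`. -/
def P_KAP : Prop := ∀ (X W K : Type) [Field K] (T : X → Set W),
  ∃ κ : Finset W → (X → K) →ₗ[K] (X → K), KapOK T κ

/-- JOB THETA (1 hour).  PROOF.  Define linear maps `Ψ F` (`F : Finset W`) by strong recursion on `F`
(well-founded: strict inclusion of finsets):
`Ψ F r := κ F (r - ∑ F' ∈ F.ssubsets, Ψ F' r)`.  (It may be easier to define the functions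
`Ψ F r` by recursion first and prove additivity and homogeneity by strong induction afterwards.)

(a) `r x = ∑ F' ∈ (T x).powerset, Ψ F' r x` (`T x` as a finset).  Put `F := T x`,
`u := r - ∑ F' ∈ F.ssubsets, Ψ F' r`.  By KapOK `JJ T F (ind T F u - κ F u)` with some `H`
disjoint from `F`; if the value at `x` were nonzero, then some `t ∈ H` would lie in `T x = F`,
contradiction.  So `κ F u x = ind T F u x = u x` (`F ⊆ T x`), i.e. `Ψ F r x = u x`.

(b) If `G` is finite and `r x ≠ 0` implies `∃ g ∈ G, g ∈ T x`, then `Ψ F r = 0` for all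
`F` disjoint from `G`.  Strong induction: all `F' ⊂ F` are disjoint from `G`, so
`Ψ F r = κ F r`; and `JJ T F (ind T F r)` holds with `H := G`, so `κ F r = 0`.

(c) Let `PairOK T κ A B` and `r ∈ B`.  Then `Ψ F r ∈ B` if `F ⊆ A`, and `Ψ F r = 0` if
`¬ F ⊆ A`.  Strong induction.  If `F ⊆ A`, all `Ψ F' r` (`F' ⊂ F`) are in `B`, so
`u ∈ B` and `κ F u ∈ B`.  If `¬ F ⊆ A` put `F0 := F.filter (· ∈ A)`, a strict subset of `F`.
By induction `∑ F' ∈ F.ssubsets, Ψ F' r = ∑ F' ∈ F0.powerset, Ψ F' r`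
(the other terms vanish, a subset `F'` of `F` with `F' ⊆ A` is a subset of `F0`, and all
subsets of `F0` are strict subsets of `F`) `= ∑ F' ∈ F0.ssubsets, Ψ F' r + Ψ F0 r`.  So with
`u0 := r - ∑ F' ∈ F0.ssubsets, Ψ F' r ∈ B` we have `u := r - ∑ F' ∈ F.ssubsets, Ψ F' r =
u0 - κ F0 u0`.  Let `u1 := ind T F0 u0 - κ F0 u0 ∈ B` (cut, kap).  By KapOK
`JJ T F0 u1`, by `wit` there is `H ⊆ A` disjoint from `F0` such that `u1 x ≠ 0` implies
`∃ t ∈ H, t ∈ T x`.  Now `ind T F u = ind T F u1` (on points with `F ⊆ T x` also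
`F0 ⊆ T x`).  So `JJ T F (ind T F u)` holds with the same `H`: `H` is disjoint from `F`,
for `t ∈ H ∩ F` would lie in `A`, so in `F0`.  Hence `Ψ F r = κ F u = 0`.

Define `Θ G r x := ∑ F ∈ (T x).powerset.filter (Disjoint · G), Ψ F r x`.  Linear.
`zero` is (b), `one` is (a).  `loc`: for `r ∈ B` the terms with `¬ F ⊆ A` vanish by
(c), and for `F ⊆ A` we have `Disjoint F G ↔ Disjoint F G'`. -/
def P_THETA : Prop := ∀ (X W K : Type) [Field K] (T : X → Set W), (∀ x, (T x).Finite) →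
  ∀ κ : Finset W → (X → K) →ₗ[K] (X → K), KapOK T κ →
    ∃ Θ : Finset W → (X → K) →ₗ[K] (X → K), ThOK T κ Θ

/-- functions with values in the subgroups `T x` and finite range -/
def Fn {X A : Type} [AddCommGroup A] (T : X → AddSubgroup A) : AddSubgroup (X → A) where
  carrier := {f | (∀ x, f x ∈ T x) ∧ (Set.range f).Finite}
  zero_mem' := by
    refine ⟨fun x => (T x).zero_mem, (Set.finite_singleton (0 : A)).subset ?_⟩
    rintro _ ⟨x, rfl⟩
    rfl
  add_mem' := by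
    rintro f g ⟨hf, hf'⟩ ⟨hg, hg'⟩
    refine ⟨fun x => (T x).add_mem (hf x) (hg x), (hf'.add hg').subset ?_⟩
    rintro _ ⟨x, rfl⟩
    exact Set.add_mem_add ⟨x, rfl⟩ ⟨x, rfl⟩
  neg_mem' := by
    rintro f ⟨hf, hf'⟩
    refine ⟨fun x => (T x).neg_mem (hf x), hf'.neg.subset ?_⟩
    rintro _ ⟨x, rfl⟩
    exact Set.neg_mem_neg.mpr ⟨x, rfl⟩

section socle

variable {p : ℕ} [Fact p.Prime] {X W ι : Type} [AddCommGroup W] [Module (ZMod p) W]

/-- a closed triple: `A ⊆ W`, `B` functions to `ZMod p`, `C` functions in `Fn T` -/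
structure Tri (T : X → AddSubgroup W) (κ Θ : Finset W → (X → ZMod p) →ₗ[ZMod p] (X → ZMod p))
    (b : Module.Basis ι (ZMod p) W) (π : (X → W) →ₗ[ZMod p] (X → W))
    (A : Set W) (B : AddSubgroup (X → ZMod p)) (C : AddSubgroup (X → W)) : Prop where
  pair : PairOK (fun x => (T x : Set W)) κ A B
  th : ∀ G : Finset W, ↑G ⊆ A → ∀ r ∈ B, Θ G r ∈ B
  sub : C ≤ Fn T
  val : ∀ c ∈ C, ∀ x, c x ∈ A
  comp : ∀ c ∈ C, ∀ l : W → ZMod p, (fun x => l (c x)) ∈ B
  sup : ∀ t ∈ A, ∀ i, b.repr t i ≠ 0 → b i ∈ A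
  back : ∀ r ∈ B, ∀ i, b i ∈ A → π (fun x => r x • b i) ∈ C

end socle

/-- JOB LEMN (1 hour).  PROOF.  Write `f - c` with `c ∈ ⨆ i, C i`, so
`c = ∑ i ∈ I0, c i`, `c i ∈ C i` (`AddSubgroup.mem_iSup_iff_exists_finsupp` or closure induction).
Let `Ff := Submodule.span (range f)`.
In the space `I0 → W` (or `I →₀ W`) let `Pf := {q | ∑ q i ∈ Ff ⊔ L}` and let
`φ : Pf → Ff` be the linear map which sends `q` to the unique `a ∈ Ff` with
`∑ q i - a ∈ L` (`Ff ⊓ L = ⊥`; for instance compose with the projection `Ff ⊔ L → Ff`,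
or extend the linear map `Submodule.linearProjOfIsCompl`; it is enough to have a linear map
`φ' : W → W` with `φ' = id` on `Ff`, `φ' = 0` on `L`: take a complement `M` of
`L` containing `Ff` (`Submodule.exists_isCompl` in `W ⧸ L` or
`Disjoint` extended: `exists_isCompl` + `Submodule.exists_le_isCompl`) and let `φ'` be the
projection to `M` along `L`.)  With this `φ'`: `f x = φ' (f x) = φ' (c x) = ∑ i ∈ I0, φ' (c i x)`,
because `f x - c x ∈ L`.  This is the simplest way.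
For a basis index `j` let `fj x := b.repr (f x) j` and `r i j x := b.repr (φ' (c i x)) j`; so
`fj = ∑ i ∈ I0, r i j` and `r i j ∈ B i` by `comp`.
Let `G := {t ∈ range f | b.repr t j ≠ 0}`, a finset (the range of `f` is finite).  If
`fj x ≠ 0` then `f x ∈ G` and `f x ∈ T x`; so `Θ G fj = 0` by `ThOK.zero`.
Let `I1 := I0.filter (b j ∈ A i)`.  If `i ∉ I1` then no element of `G` lies in `A i` (by `sup`), so
`Θ G (r i j) = Θ ∅ (r i j) = r i j` (`ThOK.loc` with the pair of `i`, `ThOK.one`).  If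
`i ∈ I1` then `Θ G (r i j) = Θ (G.filter (· ∈ A i)) (r i j) ∈ B i` (`loc`, `th`).  So
`fj = fj - Θ G fj = ∑ i ∈ I1, (r i j - Θ G (r i j))`, a sum of elements `s i j ∈ B i` with
`b j ∈ A i`.  Only finitely many `j` have `fj ≠ 0` (those in the supports of `b.repr t`,
`t ∈ range f`): let `J` be this finset; `f = ∑ j ∈ J, fun x => fj x • b j
= ∑ j ∈ J, ∑ i ∈ I1 j, fun x => s i j x • b j`.  Apply `π`: `f = π f =
∑ ∑ π (fun x => s i j x • b j) ∈ ⨆ i, C i` by `back`. -/
def P_LEMN : Prop := ∀ (p : ℕ) [Fact p.Prime] (X W ι I : Type) [AddCommGroup W]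
  [Module (ZMod p) W] (T : X → AddSubgroup W), (∀ x, (T x : Set W).Finite) →
  ∀ (κ Θ : Finset W → (X → ZMod p) →ₗ[ZMod p] (X → ZMod p))
    (b : Module.Basis ι (ZMod p) W) (π : (X → W) →ₗ[ZMod p] (X → W)),
    ThOK (fun x => (T x : Set W)) κ Θ → (∀ f ∈ Fn T, π f = f) →
    ∀ (A : I → Set W) (B : I → AddSubgroup (X → ZMod p)) (C : I → AddSubgroup (X → W)),
      (∀ i, Tri T κ Θ b π (A i) (B i) (C i)) →
      ∀ f ∈ Fn T, ∀ L : Submodule (ZMod p) W,
        (∀ t ∈ Submodule.span (ZMod p) (Set.range f), t ∈ L → t = 0) →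
        (∃ c ∈ ⨆ i, C i, ∀ x, f x - c x ∈ L) → f ∈ ⨆ i, C i

/-- JOB CLO (1 hour).  PROOF.  Let `Ω := W ⊕ ((X → ZMod p) ⊕ (X → W))`.  Let `F s` be the set of
all the following finitely or countably many elements (a countable union of countable sets; `s`
is finite, so there are finitely many `F' : Finset W` with all `w ∈ F'` in `s`,
finitely many `r` and `f` in `s`):
* `inr (inl 0)`, `inr (inr 0)`;
* for `r, r'` in `s`: `r + r'`, `- r`; for `f, f'` in `s`: `f + f'`, `- f`;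
* for `F'`, `u` in `s`: `κ F' u`, `ind T F' u`, `Θ F' u`, and, if `JJ T F' u`, all
  elements of a chosen `H` as in the definition of `JJ`;
* for `f` in `s` with `f ∈ Fn T`: all `f x` (finite range) and all `fun x => l (f x)`,
  `l : W → ZMod p` (finitely many functions: they only depend on `l` restricted to the finite
  range of `f`; the set of them injects into functions from the range of `f` to `ZMod p`);
* for `t` in `s`: all `b i` with `b.repr t i ≠ 0` (finite support);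
* for `r` in `s` and `w` in `s`: `π (fun x => r x • w)`.
For closed `E` put `A := {w | inl w ∈ E}`, `B := {r | inr (inl r) ∈ E}`,
`C := {f ∈ Fn T | inr (inr f) ∈ E}`.  `back` uses `hπ : ∀ g, π g ∈ Fn T`. -/
def P_CLO : Prop := ∀ (p : ℕ) [Fact p.Prime] (X W ι : Type) [AddCommGroup W]
  [Module (ZMod p) W] (T : X → AddSubgroup W)
    (κ Θ : Finset W → (X → ZMod p) →ₗ[ZMod p] (X → ZMod p))
    (b : Module.Basis ι (ZMod p) W) (π : (X → W) →ₗ[ZMod p] (X → W)), (∀ g, π g ∈ Fn T) →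
    ∃ F : Finset (W ⊕ ((X → ZMod p) ⊕ (X → W))) → Set (W ⊕ ((X → ZMod p) ⊕ (X → W))),
      (∀ s, (F s).Countable) ∧ ∀ E, FCV.Closed F E →
        ∃ (B : AddSubgroup (X → ZMod p)) (C : AddSubgroup (X → W)),
          Tri T κ Θ b π {w | Sum.inl w ∈ E} B C ∧
          (∀ f, f ∈ C ↔ f ∈ Fn T ∧ Sum.inr (Sum.inr f) ∈ E)

/-- JOB CHAIN (1 hour).  A space `V` with a decreasing filtration `Vn` is a union of a well ordered
chain of spaces `N a = ⨆ b < a, D b`, closed in `V`, with countable `D b`.  Then `V` is a countable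
ascending union of `S n` with `S n ∩ Vn n = 0`.

PROOF.  Fix `a` and let `U := D a` (countable), `N := ⨆ b < a, D b`.
STEP 1.  There are finite subspaces `Q 0 ≤ Q 1 ≤ ...` of `U` with
`Q n ⊓ N = ⊥` and `U ≤ N ⊔ ⨆ Q n`: let `D'` be a complement of `U ⊓ N` in `U`
(so `D' ≤ U`, `D' ⊓ N = ⊥`, `U ≤ N ⊔ D'`), enumerate the countable set `D'` as
`d 0, d 1, ...` and let `Q n := span {d 0, ..., d n}` (finite as a set).
STEP 2.  For `v ∈ Q n`, `v ≠ 0` we have `v ∉ N`, so by closedness there is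
`m` with `v ∉ N ⊔ Vn m`, and then `v ∉ N ⊔ Vn m'` for all `m' ≥ m` (antitone).  As `Q n` is finite
there is `μ n` with: `v ∈ Q n`, `v ∈ N ⊔ Vn m`, `m ≥ μ n` imply `v = 0`.  Let
`R m := ⨆ n ≤ m with μ' n ≤ m, Q n`, where `μ' n := max over k ≤ n of μ k`
(equivalently `R m := Q (k m)` where `k m` is the largest `n ≤ m` with `μ' n ≤ m`, and
`R m := ⊥` if there is none).  So `R` is monotone, `⋃ R m = ⋃ Q n`, `U ≤ N ⊔ ⨆ R m`,
`R m ≤ U`, and `v ∈ R m`, `v ∈ N ⊔ Vn m` imply `v = 0`.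
STEP 3.  Do this for all `a` (choice) and put `S m := ⨆ a, R a m`.  Monotone.  If
`v ∈ S m ∩ Vn m`, write `v = ∑ v a` (finite sum, `v a ∈ R a m`), let `a` be the largest
index with `v a ≠ 0`; the others lie in `D b ≤ N a`, so `v a ∈ N a ⊔ Vn m`,
so `v a = 0`, contradiction.  So `v = 0`.  Finally `D a ≤ ⋃ m, S m` by well-founded
induction on `a`: `D a ≤ N a ⊔ ⨆ R a m` and `N a = ⨆ b < a, D b ≤ ⋃ S m` (a
directed union of submodules), so every `v` lies in some `S m` by `hcov`. -/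
def P_CHAIN : Prop := ∀ (p : ℕ) [Fact p.Prime] (V ι : Type) [AddCommGroup V] [Module (ZMod p) V]
  [LinearOrder ι] [WellFoundedLT ι] (Vn : ℕ → Submodule (ZMod p) V)
  (D : ι → Submodule (ZMod p) V), Antitone Vn → (∀ a, (D a : Set V).Countable) →
  (∀ v, ∃ a, v ∈ D a) →
  (∀ (a : ι) (v : V), (∀ n, ∃ u ∈ (⨆ b : {b : ι // b < a}, D b.1), v - u ∈ Vn n) →
    v ∈ (⨆ b : {b : ι // b < a}, D b.1)) →
  ∃ S : ℕ → Submodule (ZMod p) V, Monotone S ∧ (∀ v, ∃ n, v ∈ S n) ∧
    ∀ n, ∀ v ∈ S n, v ∈ Vn n → v = 0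

/-- JOB BAS (1 hour).  A valuated space which is a countable ascending union of subspaces with bounded
values has a homogeneous basis (Kulikov, Fuchs).

PROOF.  STEP 1: we may assume in addition `S n ⊔ Vn n = ⊤` for all `n`.  Consider the set of
all monotone sequences `S' : ℕ → Submodule` with `S' n ⊓ Vn n = ⊥` for all `n` and
`S n ≤ S' n`, ordered pointwise; chains have upper bounds (pointwise supremum of a
nonempty chain), so by Zorn there is a maximal one, `S`.  CLAIM: for all `m`,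
`v ∈ S m` implies `v ∈ S n ⊔ Vn n` for all `n`.  Strong induction on `m`, `n` fixed.
If `m ≤ n` clear (monotone).  Let `n < m`.  Define `S' j := S j ⊔ span {v}` for
`n ≤ j < m`, `S' j := S j` otherwise.  It is monotone (`v ∈ S m`).  If `v ∈ S n` we are done.
Otherwise `S' ≠ S`, `S ≤ S'`, so by maximality some `S' j ⊓ Vn j ≠ ⊥`, `n ≤ j < m`:
there are `s ∈ S j` and a scalar `c` with `0 ≠ s + c v ∈ Vn j`; `c ≠ 0` as
`S j ⊓ Vn j = ⊥`; so `v ∈ S j ⊔ Vn j`, `v = s' + w`, `s' ∈ S j`, `w ∈ Vn j ≤ Vn n`.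
If `j = n` done, in any case `s' ∈ S j` with `j < m`, so `s' ∈ S n ⊔ Vn n` by induction
(for `j ≤ n` trivial), so `v ∈ S n ⊔ Vn n`.  As every `v` lies in some `S m`, the claim
gives `S n ⊔ Vn n = ⊤`.
STEP 2: `U k := S (k+1) ⊓ Vn k`.  `S 0 = ⊥` as `S 0 ⊓ Vn 0 = ⊥` and `Vn 0 = ⊤`.
`S (k+1) = S k ⊕ U k`: for `s ∈ S (k+1)` write `s = s' + v`, `s' ∈ S k`, `v ∈ Vn k`;
then `v = s - s' ∈ U k`; and `S k ⊓ U k ≤ S k ⊓ Vn k = ⊥`.  Take bases of the
`U k` and let `e` be the family of all of them, `ι := Σ k, (index of U k)`, `h` the first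
component.  The `U k` are independent with supremum `⊤` (induction on `n`:
`S n = ⨆ k < n, U k`), so this is a basis (`DirectSum.IsInternal.collectedBasis`).
`e i ∈ U (h i) ≤ Vn (h i)`.  Let `v ∈ Vn n`, and split `v = v1 + v2` where `v1` is the part of
`v` with `h i < n`, `v2` the part with `h i ≥ n`.  `v1 ∈ S n`, `v2 ∈ Vn n`, so
`v1 = v - v2 ∈ Vn n ⊓ S n = ⊥`. -/
def P_BAS : Prop := ∀ (p : ℕ) [Fact p.Prime] (V : Type) [AddCommGroup V] [Module (ZMod p) V]
  (Vn : ℕ → Submodule (ZMod p) V) (S : ℕ → Submodule (ZMod p) V), Antitone Vn → Vn 0 = ⊤ →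
  Monotone S → (∀ v, ∃ n, v ∈ S n) → (∀ n, ∀ v ∈ S n, v ∈ Vn n → v = 0) →
  ∃ (ι : Type) (h : ι → ℕ) (e : Module.Basis ι (ZMod p) V), (∀ i, e i ∈ Vn (h i)) ∧
    ∀ (n : ℕ), ∀ v ∈ Vn n, ∀ i, e.repr v i ≠ 0 → n ≤ h i

/-- JOB KUL (1 hour).  A torsion group all whose socles have homogeneous bases is a direct sum of cyclic
groups (Kulikov).  `e q i` is the basis of the socle `{a | q • a = 0}` (`q` prime), written
without module structures: `span`: every element `a` with `q • a = 0` which is divisible by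
`q ^ n` is a finite sum of integer multiples of basis elements `e q i` with `n ≤ h q i`;
`ind`: independence.

PROOF.  Choose `g q i` with `e q i = q ^ (h q i) • g q i`; the order of `g q i` is
`q ^ (h q i + 1)`.  Let `ι := Σ q : Nat.Primes, I q`, `k ⟨q, i⟩ := q ^ (h q i + 1)`
and let `Φ : (Π₀ j, ZMod (k j)) →+ A` be the homomorphism with
`Φ (single j x) = x.val • g j` (`DFinsupp.liftAddHom`, `ZMod.lift`).
INJECTIVE: let `Φ z = 0`, `z ≠ 0`.  `z` has finite order, so some multiple `m • z ≠ 0` is killed by a prime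
`q`; replace `z` by it.  Then each coordinate `z j` is killed by `q`: for `j = ⟨q', i⟩` with
`q' ≠ q` it is zero (`ZMod (q' ^ s)`, coprime), for `q' = q` it is a multiple
`c • q ^ (h q i)`.  So `Φ z = ∑ c i • e q i` and `ind` gives `q ∣ c i`, so `z = 0`.
SURJECTIVE: show by strong induction on `n` that every `a` with `n • a = 0`, `n > 0`, is in the
range `R` of `Φ`.  `n = 1` trivial.  If `n = m1 * m2` with coprime `m1, m2 > 1`: `u m1 + v m2 = 1`,
`a = u m1 a + v m2 a`, `m2 • (m1 a) = 0`, `m1 • (m2 a) = 0`.  Otherwise `n = q ^ m`, `m ≥ 1`: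
`q ^ (m-1) • a` is killed by `q` and divisible by `q ^ (m-1)`, so it is
`∑ c i • e q i` over `i` with `h q i ≥ m - 1`
`= q ^ (m-1) • ∑ c i • q ^ (h q i - (m-1)) • g q i`; the difference of `a` and
`∑ c i • q ^ (h q i - (m-1)) • g q i ∈ R` is killed by `q ^ (m-1)`, so it is in `R`. -/
def P_KUL : Prop := ∀ (A : Type) [AddCommGroup A] (I : Nat.Primes → Type)
  (h : (q : Nat.Primes) → I q → ℕ) (e : (q : Nat.Primes) → I q → A),
  (∀ a : A, ∃ n : ℕ, 0 < n ∧ n • a = 0) →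
  (∀ (q : Nat.Primes) (i : I q), (q : ℕ) • e q i = 0 ∧
    ∃ g : A, e q i = (q : ℕ) ^ (h q i) • g) →
  (∀ (q : Nat.Primes) (n : ℕ) (a : A), (q : ℕ) • a = 0 → (∃ g : A, a = (q : ℕ) ^ n • g) →
    ∃ c : I q →₀ ℤ, (∀ i, c i ≠ 0 → n ≤ h q i) ∧ a = c.sum (fun i m => m • e q i)) →
  (∀ (q : Nat.Primes) (c : I q →₀ ℤ), c.sum (fun i m => m • e q i) = 0 →
    ∀ i, ((q : ℕ) : ℤ) ∣ c i) →
  ∃ (J : Type) (k : J → ℕ), (∀ j, 0 < k j) ∧ Nonempty (A ≃+ Π₀ j, ZMod (k j))

/-- JOB SOC (1 hour; may use P_KAP, P_THETA, P_LEMN, P_CLO, P_CHAIN as hypotheses).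
PROOF.  Apply `P_KAP`, `P_THETA` to `fun x => (T x : Set W)` and `K := ZMod p`; take a basis
`b` of `W` (`Module.Basis.ofVectorSpace`); `Fn T` is closed under scalars (`ZMod p`: integer
multiples, `ZMod.map_smul` or `AddSubgroup.toZModSubmodule p`), so there is a linear
`π : (X → W) →ₗ (X → W)` with all values in `Fn T` and `π f = f` on `Fn T`
(`Submodule.exists_isCompl`, `Submodule.linearProjOfIsCompl`).  `P_CLO` gives `F`.
Let `V := Fn T` as a `ZMod p` space, `Vn n := {f | ∀ x, f x ∈ Wn n}`.  For `a : V` let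
`E a := FCV.cl F {inr (inr a.1)}`, a countable closed set (`FCV.cl_closed`,
`FCV.mk_cl_le`), `D a := {f ∈ V | inr (inr f) ∈ E a}` the group `C` of `P_CLO`; it contains
`a` (`FCV.subset_cl`), is countable (it injects into `E a`).  Well-order `V`
(`exists_wellOrder` or `linearOrderOfSTO WellOrderingRel`).  The closedness hypothesis of
`P_CHAIN`: let `f` be approximated by `⨆ b < a, D b` modulo all `Vn n`; `span (range f)` is
finite (finite range, finite field), and as `⋂ Wn n = 0` and `Wn` is antitone there is `n` with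
`span (range f) ∩ Wn n = 0` (a finite set of nonzero elements, each outside some `Wn m`);
`P_LEMN` (index type `{b // b < a}`) with `L := Wn n` gives `f ∈ ⨆ b < a, D b`.  `P_CHAIN`
gives `S`; map it to `X → W`.  (`⨆` of `AddSubgroup`s of `X → W` against `⨆` of submodules
of `V`: both mean finite sums.) -/
def P_SOC : Prop := ∀ (p : ℕ) [Fact p.Prime] (X W : Type) [AddCommGroup W]
  [Module (ZMod p) W] (T : X → AddSubgroup W) (Wn : ℕ → Submodule (ZMod p) W),
  (∀ x, (T x : Set W).Finite) → Antitone Wn → (∀ w, (∀ n, w ∈ Wn n) → w = 0) →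
  ∃ S : ℕ → AddSubgroup (X → W), Monotone S ∧ (∀ n, S n ≤ Fn T) ∧
    (∀ f ∈ Fn T, ∃ n, f ∈ S n) ∧ ∀ n, ∀ f ∈ S n, (∀ x, f x ∈ Wn n) → f = 0

/-- JOB FA (1 hour; may use P_SOC, P_BAS, P_KUL as hypotheses).
PROOF.  Let `q` be a prime.  `Wq := {a : A | q • a = 0}` is a `ZMod q` space
(`AddCommGroup.zmodModule`), `Wn n := {a ∈ Wq | ∃ b, a = q ^ n • b}` is antitone.  If `a ∈ Wn n`
for all `n` and `a ≠ 0`, let `a ∉ n0 • A`, `n0 = q ^ s * m`, `q ∤ m` (`n0 > 0`,
`Nat.exists_eq_pow_mul_and_not_dvd`); `a = q ^ s • b` with `q ^ (s+1) • b = 0`, and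
`m * m' ≡ 1 mod q ^ (s+1)`, so `b = m • (m' • b)`, `a = n0 • (m' • b)`, contradiction.
Apply `P_SOC` with `T' x := {a ∈ Wq | a ∈ T x}`: get `S`.  Let `V := {f ∈ Fn T | q • f = 0}`, a
`ZMod q` space, isomorphic to `Fn T'` (values in `Wq`), `Vn n := {f ∈ V | ∃ g ∈ Fn T,
f = q ^ n • g}`; `Vn 0 = ⊤`, antitone, and `f ∈ Vn n` implies `f x ∈ Wn n`.  So `P_BAS`
applies (with `S n` transported to `V`) and gives `I q`, `h q`, and the basis `e q` of `V`.
Now `P_KUL` with `A := Fn T`: torsion because an `f` with finite range is killed by the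
product of the orders of its values; the third hypothesis is the last statement of `P_BAS`
(`v = ∑ (repr v i) • e i`, lift the coefficients from `ZMod q` to `ℤ`, taking `0` for `0`); the
fourth is linear independence over `ZMod q` (`m • e i = (m : ZMod q) • e i`). -/
def P_FA : Prop := ∀ (X A : Type) [AddCommGroup A] (T : X → AddSubgroup A),
  (∀ x, (T x : Set A).Finite) → (∀ a : A, ∃ n : ℕ, 0 < n ∧ n • a = 0) →
  (∀ a : A, a ≠ 0 → ∃ n : ℕ, 0 < n ∧ ∀ b : A, a ≠ n • b) →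
  ∃ (J : Type) (k : J → ℕ), (∀ j, 0 < k j) ∧ Nonempty (Fn T ≃+ Π₀ j, ZMod (k j))

/-- functions given on `Y` only: values in `T x` and finite range on `Y` -/
def Dn {X A : Type} [AddCommGroup A] (T : X → AddSubgroup A) (Y : Set X) : AddSubgroup (X → A) where
  carrier := {f | (∀ x ∈ Y, f x ∈ T x) ∧ (f '' Y).Finite}
  zero_mem' := by
    refine ⟨fun x _ => (T x).zero_mem, (Set.finite_singleton (0 : A)).subset ?_⟩
    rintro _ ⟨x, _, rfl⟩
    rfl
  add_mem' := by
    rintro f g ⟨hf, hf'⟩ ⟨hg, hg'⟩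
    refine ⟨fun x hx => (T x).add_mem (hf x hx) (hg x hx), (hf'.add hg').subset ?_⟩
    rintro _ ⟨x, hx, rfl⟩
    exact Set.add_mem_add ⟨x, hx, rfl⟩ ⟨x, hx, rfl⟩
  neg_mem' := by
    rintro f ⟨hf, hf'⟩
    refine ⟨fun x hx => (T x).neg_mem (hf x hx), hf'.neg.subset ?_⟩
    rintro _ ⟨x, hx, rfl⟩
    exact Set.neg_mem_neg.mpr ⟨x, hx, rfl⟩

/-- JOB EXTF (20 minutes).  PROOF.  The set of the `f : Fn T` whose coordinates `e f j` vanish
outside the finset `t` is finite (it injects into `(j : t) → ZMod (k j)`, finite as `k j > 0`).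
So `x ↦ ((fun a : s => (a ∈ T x)), (f x) for these f)` has finite range (each `f` has finite
range; `Set.Finite.pi'`); take one `x'` for each value (`FCV.exists_finite_reps`). -/
def P_EXTF : Prop := ∀ (X A J : Type) [AddCommGroup A] (T : X → AddSubgroup A) (k : J → ℕ)
  (e : Fn T ≃+ Π₀ j, ZMod (k j)), (∀ j, 0 < k j) → ∀ (s : Finset A) (t : Finset J),
  ∃ Y : Finset X, ∀ x, ∃ x' ∈ Y, (∀ a ∈ s, (a ∈ T x' ↔ a ∈ T x)) ∧
    ∀ f : Fn T, (∀ j, e f j ≠ 0 → j ∈ t) → f.1 x' = f.1 x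

/-- JOB EXT (1 hour).  PROOF.  Fix `x`.  For finite `s ⊆ AE`, `t ⊆ JE` let `Q s t` be the set of
all `x' ∈ Y` as in the hypothesis; it is nonempty and decreasing in `(s, t)`, so there is an
ultrafilter `u x` on `X` containing `Y` and all `Q s t` (index by `Finset AE × Finset JE`, directed;
`Filter.generate` / `iInf` of principal filters and `Ultrafilter.of`, or: the ultrafilter
`Ultrafilter.of atTop` on `Finset AE × Finset JE` mapped by a choice function
`(s, t) ↦ x' ∈ Q s t`; this second way is easier).  For `f ∈ Dn T Y` the values `f x'`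
(`x' ∈ Y`) form a finite set, so there is a unique `v` with `∀ᶠ x' in u x, f x' = v`
(`Ultrafilter.finite_biUnion_mem_iff`, compare `FCV.compactness`); put `êf x := v`.  `v ∈ T x`: `v = f x'`
for `u x`-almost all `x'`, and `f x' ∈ T x'`, `x' ∈ Y` so `v ∈ AE` by `hYA`; for
`(s, t) ≥ ({v}, ∅)` we have `v ∈ T x' → v ∈ T x`.  The range of `êf` is contained in `f '' Y`.
So `ê : Dn T Y → Fn T`, additive.  If `f : Fn T` has coordinates in `JE`, then
for `(s, t) ≥ (∅, support of e f)`: `f x' = f x`, so `ê f = f`.  Finally `ρ f := P (ê f)` where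
`P : Fn T → Fn T` keeps the coordinates in `JE` and makes the others `0`
(`e.symm ∘ DFinsupp.filterAddMonoidHom _ (· ∈ JE) ∘ e`). -/
def P_EXT : Prop := ∀ (X A J : Type) [AddCommGroup A] (T : X → AddSubgroup A) (k : J → ℕ)
  (e : Fn T ≃+ Π₀ j, ZMod (k j)) (Y : Set X) (AE : Set A) (JE : Set J),
  (∀ x ∈ Y, ∀ a ∈ T x, a ∈ AE) →
  (∀ (s : Finset A) (t : Finset J), ↑s ⊆ AE → ↑t ⊆ JE → ∀ x, ∃ x' ∈ Y,
    (∀ a ∈ s, a ∈ T x' → a ∈ T x) ∧ ∀ f : Fn T, (∀ j, e f j ≠ 0 → j ∈ t) → f.1 x' = f.1 x) →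
  ∃ ρ : Dn T Y →+ Fn T, (∀ f j, e (ρ f) j ≠ 0 → j ∈ JE) ∧
    (∀ (f : Fn T) (g : Dn T Y), (∀ j, e f j ≠ 0 → j ∈ JE) → (∀ x ∈ Y, g.1 x = f.1 x) →
      ρ g = f)

end Pool.Agent.Q28.TM
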